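import Pool.Agent.R679.Tr2

/-!
The set of the labels of the paths of a finite graph with semilinear labels is semilinear;
the phases of a transducer.
-/

namespace Pool.Agent.K3h33.MC

open Pointwise Pool.Agent.R679.Tr

section walks

variable {σ M : Type} [AddCommMonoid M]

/-- walks that depart only from vertices of `X` -/
inductive Wk (E : σ → σ → Set M) (X : Set σ) : σ → σ → M → Prop
  | nil (p : σ) : Wk E X p p 0
  | cons {p p' q : σ} {e m : M} : p ∈ X → e ∈ E p p' → Wk E X p' q m → Wk E X p q (e + m)

variable {E : σ → σ → Set M}

lemma Wk.mono {X X' : Set σ} (h : X ⊆ X') {p q : σ} {m : M} (hw : Wk E X p q m) :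
    Wk E X' p q m := by
  induction hw with
  | nil p => exact Wk.nil p
  | cons hp he _ ih => exact Wk.cons (h hp) he ih

lemma Wk.append {X : Set σ} {p q r : σ} {m m' : M} (hw : Wk E X p q m) (hw' : Wk E X q r m') :
    Wk E X p r (m + m') := by
  induction hw with
  | nil p => simpa using hw'
  | cons hp he _ ih =>
    rw [add_assoc]
    exact Wk.cons hp he (ih hw')

theorem semilinear_walk [Finite σ] (hE : ∀ p q, IsSemilinearSet (E p q)) (X : Finset σ) :
    ∀ p q, IsSemilinearSet {m | Wk E (X : Set σ) p q m} := by
  classical
  induction X using Finset.induction_on with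
  | empty =>
    intro p q
    by_cases hpq : p = q
    · subst hpq
      suffices heq : {m : M | Wk E ((∅ : Finset σ) : Set σ) p p m} = {0} by
        rw [heq]; exact IsSemilinearSet.singleton (0 : M)
      ext m
      simp only [Set.mem_ofPred_eq, Set.mem_singleton_iff]
      constructor
      · intro h
        cases h with
        | nil => rfl
        | cons hp _ _ => simp at hp
      · rintro rfl; exact Wk.nil p
    · suffices heq : {m : M | Wk E ((∅ : Finset σ) : Set σ) p q m} = ∅ by
        rw [heq]; exact IsSemilinearSet.empty
      ext m
      simp only [Set.mem_ofPred_eq, Set.mem_empty_iff_false, iff_false]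
      intro h
      cases h with
      | nil => exact hpq rfl
      | cons hp _ _ => simp at hp
  | insert x X hx ih =>
    intro p q
    set A : σ → σ → Set M := fun p q => {m | Wk E (X : Set σ) p q m} with hA
    have h1 : IsSemilinearSet (⋃ p', E x p' + A p' x) :=
      IsSemilinearSet.iUnion fun p' => (hE x p').add (ih p' x)
    have h2 : IsSemilinearSet (⋃ p', E x p' + A p' q) :=
      IsSemilinearSet.iUnion fun p' => (hE x p').add (ih p' q)
    have h3 := (ih p q).union (((ih p x).add h1.closure).add h2)
    suffices heq : {m | Wk E ((insert x X : Finset σ) : Set σ) p q m} =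
        {m | Wk E (X : Set σ) p q m} ∪ ({m | Wk E (X : Set σ) p x m} +
          (AddSubmonoid.closure (⋃ p', E x p' + A p' x) : Set M) + ⋃ p', E x p' + A p' q) by
      rw [heq]; exact h3
    ext m
    constructor
    · intro h
      have key : ∀ {p q : σ} {m : M}, Wk E ((insert x X : Finset σ) : Set σ) p q m →
          m ∈ A p q ∪ (A p x + (AddSubmonoid.closure (⋃ p', E x p' + A p' x) : Set M) +
            ⋃ p', E x p' + A p' q) := by
        intro p q m h
        induction h with
        | nil p => exact Or.inl (Wk.nil p)
        | @cons p p' q e m hp he _ ih' =>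
          rcases ih' with ih' | ih'
          · rcases Finset.mem_insert.1 (Finset.mem_coe.1 hp) with rfl | hp
            · right
              rw [Set.mem_add]
              refine ⟨0, ?_, e + m, ?_, zero_add _⟩
              · rw [Set.mem_add]
                exact ⟨0, Wk.nil _, 0, AddSubmonoid.zero_mem _, add_zero _⟩
              · rw [Set.mem_iUnion]
                exact ⟨p', Set.add_mem_add he ih'⟩
            · left
              exact Wk.cons (Finset.mem_coe.2 hp) he ih'
          · right
            rw [Set.mem_add] at ih'
            obtain ⟨y, hy, o, ho, rfl⟩ := ih'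
            rw [Set.mem_add] at hy
            obtain ⟨a, ha, l, hl, rfl⟩ := hy
            rcases Finset.mem_insert.1 (Finset.mem_coe.1 hp) with rfl | hp
            · have hl' : e + a ∈ AddSubmonoid.closure (⋃ p', E p p' + A p' p) := by
                apply AddSubmonoid.subset_closure
                rw [Set.mem_iUnion]
                exact ⟨p', Set.add_mem_add he ha⟩
              rw [show e + (a + l + o) = 0 + (e + a + l) + o by rw [zero_add]; abel]
              exact Set.add_mem_add (Set.add_mem_add (Wk.nil _)
                (AddSubmonoid.add_mem _ hl' hl)) ho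
            · rw [show e + (a + l + o) = (e + a) + l + o by abel]
              exact Set.add_mem_add (Set.add_mem_add (Wk.cons (Finset.mem_coe.2 hp) he ha) hl) ho
      exact key h
    · have hsub : (X : Set σ) ⊆ ((insert x X : Finset σ) : Set σ) := by
        simp
      have hxin : x ∈ ((insert x X : Finset σ) : Set σ) := by simp
      rintro (h | h)
      · exact Wk.mono hsub h
      · rw [Set.mem_add] at h
        obtain ⟨y, hy, o, ho, rfl⟩ := h
        rw [Set.mem_add] at hy
        obtain ⟨a, ha, l, hl, rfl⟩ := hy
        have e1 : Wk E ((insert x X : Finset σ) : Set σ) p x a := Wk.mono hsub ha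
        have e2 : Wk E ((insert x X : Finset σ) : Set σ) x x l := by
          induction hl using AddSubmonoid.closure_induction with
          | mem y hy =>
            rw [Set.mem_iUnion] at hy
            obtain ⟨p', hy⟩ := hy
            rw [Set.mem_add] at hy
            obtain ⟨e, he, b, hb, rfl⟩ := hy
            exact Wk.cons hxin he (Wk.mono hsub hb)
          | zero => exact Wk.nil x
          | add y z _ _ hy hz => exact hy.append hz
        have e3 : Wk E ((insert x X : Finset σ) : Set σ) x q o := by
          rw [Set.mem_iUnion] at ho
          obtain ⟨p', hy⟩ := ho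
          rw [Set.mem_add] at hy
          obtain ⟨e, he, b, hb, rfl⟩ := hy
          exact Wk.cons hxin he (Wk.mono hsub hb)
        exact (e1.append e2).append e3

end walks

section seg

variable {α β : Type}

/-- labels of the transitions in a homogeneous segment -/
def lab (T : Transducer α β) (l : α) (o : β) (p q : T.σ) : Set (ℕ × ℕ) :=
  {m | ∃ x y, T.trans p x y q ∧ x.toList = List.replicate m.1 l ∧ y.toList = List.replicate m.2 o}

lemma lab_finite (T : Transducer α β) (l : α) (o : β) (p q : T.σ) : (lab T l o p q).Finite := by
  apply (Set.finite_Iic ((1, 1) : ℕ × ℕ)).subset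
  rintro ⟨i, j⟩ ⟨x, y, _, h1, h2⟩
  have e1 := congrArg List.length h1
  have e2 := congrArg List.length h2
  simp only [List.length_replicate] at e1 e2
  have f1 : x.toList.length ≤ 1 := by cases x <;> simp
  have f2 : y.toList.length ≤ 1 := by cases y <;> simp
  exact ⟨by simpa using (e1 ▸ f1), by simpa using (e2 ▸ f2)⟩

lemma walk_of_path {T : Transducer α β} {l : α} {o : β} {p q : T.σ} {u : List α} {v : List β}
    (h : Path T p u v q) : ∀ i j, u = List.replicate i l → v = List.replicate j o →
    Wk (lab T l o) Set.univ p q (i, j) := by
  induction h with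
  | nil p =>
    intro i j hi hj
    have h1 := congrArg List.length hi
    have h2 := congrArg List.length hj
    simp only [List.length_nil, List.length_replicate] at h1 h2
    rw [← h1, ← h2]
    exact Wk.nil p
  | @cons p p' q x y u v ht _ ih =>
    intro i j hi hj
    have e1 := List.append_eq_replicate_iff.1 hi
    have e2 := List.append_eq_replicate_iff.1 hj
    have h1 := ih u.length v.length e1.2.2 e2.2.2
    have h2 : (x.toList.length, y.toList.length) ∈ lab T l o p p' :=
      ⟨x, y, ht, e1.2.1, e2.2.1⟩
    have := Wk.cons (Set.mem_univ p) h2 h1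
    rw [Prod.mk_add_mk, e1.1, e2.1] at this
    exact this

lemma path_of_walk {T : Transducer α β} {l : α} {o : β} {p q : T.σ} {m : ℕ × ℕ}
    (h : Wk (lab T l o) Set.univ p q m) : Seg T l o p q m.1 m.2 := by
  induction h with
  | nil p => exact Seg.refl T l o p
  | @cons p p' q e m _ he _ ih =>
    obtain ⟨x, y, ht, h1, h2⟩ := he
    have := Path.cons ht ih
    unfold Seg
    rw [Prod.fst_add, Prod.snd_add, List.replicate_add, List.replicate_add, ← h1, ← h2]
    exact this

theorem semilinear_seg (T : Transducer α β) (l : α) (o : β) (p q : T.σ) :
    IsSemilinearSet (SegSet T l o p q) := by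
  classical
  have := T.fin
  have := Fintype.ofFinite T.σ
  have := semilinear_walk (E := lab T l o)
    (fun p q => IsSemilinearSet.of_finite (lab_finite T l o p q)) Finset.univ p q
  suffices heq : SegSet T l o p q =
      {m | Wk (lab T l o) ((Finset.univ : Finset T.σ) : Set T.σ) p q m} by
    rw [heq]; exact this
  ext m
  rw [Finset.coe_univ]
  exact ⟨fun h => walk_of_path h _ _ rfl rfl, fun h => path_of_walk h⟩

end seg

end Pool.Agent.K3h33.MC
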