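import Pool.Agent.K3h33.MC.SS
import Pool.Agent.K3h33.MC.Kl

/-!
The structure of the strictly bounded languages that are images of the unary language of `SS`.
-/

namespace Pool.Agent.K3h33.MC

open Pool.Agent.R679.Tr

/-- the unary language of the words whose length is in `SS` -/
def SL : Language (Fin 1) := {w | w.length ∈ SS}

/-- the word `0^{e_0} 1^{e_1} ⋯` restricted to the letters of `l` -/
def wl {k : ℕ} (l : List (Fin k)) (e : Fin k → ℕ) : List (Fin k) :=
  l.flatMap fun i => List.replicate (e i) i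

/-- the word `0^{e_0} 1^{e_1} ⋯ (k-1)^{e_{k-1}}` -/
def wd {k : ℕ} (e : Fin k → ℕ) : List (Fin k) := wl (List.finRange k) e

/-- the set of the exponents defined by a finite family of products of linear sets -/
def YY {ι : Type} {k : ℕ} (P : ι → Fin k → Set (ℕ × ℕ)) : Set (Fin k → ℕ) :=
  {e | ∃ a, ∃ x : Fin k → ℕ, (∀ i, (x i, e i) ∈ P a i) ∧ ∑ i, x i ∈ SS}

/-- a path cut into its phases -/
def Ch {k : ℕ} (T : Transducer (Fin 1) (Fin k)) : List (Fin k) → T.σ → T.σ →
    ℕ → (Fin k → ℕ) → Prop
  | [], p, q, s, _ => p = q ∧ s = 0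
  | j :: l, p, q, s, e => ∃ r s1 s2, s = s1 + s2 ∧ Seg T 0 j p r s1 (e j) ∧ Ch T l r q s2 e

lemma path_of_Ch {k : ℕ} {T : Transducer (Fin 1) (Fin k)} {e : Fin k → ℕ} :
    ∀ {l : List (Fin k)} {p q : T.σ} {s : ℕ}, Ch T l p q s e →
    Path T p (List.replicate s 0) (wl l e) q := by
  intro l
  induction l with
  | nil =>
    rintro p q s ⟨rfl, rfl⟩
    exact Path.nil p
  | cons j l ih =>
    rintro p q s ⟨r, s1, s2, rfl, h1, h2⟩
    rw [List.replicate_add]
    exact Path.append h1 (ih h2)

lemma Ch_of_path {k : ℕ} {T : Transducer (Fin 1) (Fin k)} {e : Fin k → ℕ} :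
    ∀ {l : List (Fin k)} {p q : T.σ} {s : ℕ}, l ≠ [] →
    Path T p (List.replicate s 0) (wl l e) q → Ch T l p q s e := by
  intro l
  induction l with
  | nil => intro p q s h; exact absurd rfl h
  | cons j l ih =>
    intro p q s _ h
    by_cases hl : l = []
    · subst hl
      refine ⟨q, s, 0, rfl, ?_, rfl, rfl⟩
      unfold Seg
      simpa [wl] using h
    · obtain ⟨r, u1, u2, hu, h1, h2⟩ := h.split_out (v1 := List.replicate (e j) j)
        (v2 := wl l e) rfl
      have e1 := List.append_eq_replicate_iff.1 hu.symm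
      rw [e1.2.1] at h1
      rw [e1.2.2] at h2
      exact ⟨r, u1.length, u2.length, e1.1.symm, h1, ih hl h2⟩

/-- the vertical line -/
def VL : Set (ℕ × ℕ) := {x | x.1 = 0}

lemma isLinearSet_VL : IsLinearSet VL := by
  have h := (IsLinearSet.univ (M := ℕ)).image (AddMonoidHom.inr ℕ ℕ)
  suffices heq : VL = (AddMonoidHom.inr ℕ ℕ) '' Set.univ by rw [heq]; exact h
  ext ⟨a, b⟩
  simp [VL, eq_comm]

lemma sum_update {k : ℕ} (x : Fin k → ℕ) (j : Fin k) (v : ℕ) :
    ∑ i, Function.update x j v i + x j = ∑ i, x i + v := by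
  rw [Finset.sum_update_of_mem (Finset.mem_univ j),
    Finset.sum_eq_add_sum_sdiff_singleton_of_mem (Finset.mem_univ j) x]
  ring

lemma Ch_rep {k : ℕ} (T : Transducer (Fin 1) (Fin k)) : ∀ (l : List (Fin k)), l.Nodup →
    ∀ p q : T.σ, ∃ PP : Set (Fin k → Set (ℕ × ℕ)), PP.Finite ∧
      (∀ P ∈ PP, (∀ i, IsLinearSet (P i)) ∧ ∀ i, i ∉ l → P i = VL) ∧
      ∀ s e, Ch T l p q s e ↔ ∃ P ∈ PP, ∃ x : Fin k → ℕ, (∀ i, (x i, e i) ∈ P i) ∧
        ∑ i, x i = s := by
  classical
  intro l
  induction l with
  | nil =>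
    intro _ p q
    by_cases hpq : p = q
    · refine ⟨{fun _ => VL}, Set.finite_singleton _, ?_, ?_⟩
      · rintro P rfl
        exact ⟨fun _ => isLinearSet_VL, fun _ _ => rfl⟩
      · intro s e
        constructor
        · rintro ⟨_, rfl⟩
          exact ⟨_, rfl, fun _ => 0, fun _ => rfl, by simp⟩
        · rintro ⟨P, rfl, x, hx, rfl⟩
          refine ⟨hpq, ?_⟩
          apply Finset.sum_eq_zero
          intro i _
          exact hx i
    · refine ⟨∅, Set.finite_empty, by simp, ?_⟩
      intro s e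
      constructor
      · rintro ⟨h, _⟩; exact absurd h hpq
      · rintro ⟨P, hP, _⟩; exact absurd hP (Set.notMem_empty _)
  | cons j l ih =>
    intro hnd p q
    have hj : j ∉ l := (List.nodup_cons.1 hnd).1
    have hl : l.Nodup := (List.nodup_cons.1 hnd).2
    choose QQ h1 h2 h3 using fun r => ih hl r q
    have hsem := fun r => semilinear_seg T (0 : Fin 1) j p r
    choose S hS1 hS2 hS3 using hsem
    have := T.fin
    refine ⟨⋃ r, (fun x : Set (ℕ × ℕ) × (Fin k → Set (ℕ × ℕ)) =>
      Function.update x.2 j x.1) '' (S r ×ˢ QQ r), ?_, ?_, ?_⟩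
    · exact Set.finite_iUnion fun r => ((hS1 r).prod (h1 r)).image _
    · intro P hP
      rw [Set.mem_iUnion] at hP
      obtain ⟨r, ⟨A, Q⟩, ⟨hA, hQ⟩, rfl⟩ := hP
      obtain ⟨h4, h5⟩ := h2 r Q hQ
      constructor
      · intro i
        by_cases hi : i = j
        · subst hi
          simp only [Function.update_self]
          exact hS2 r A hA
        · simp only [Function.update_of_ne hi]
          exact h4 i
      · intro i hi
        rw [List.mem_cons, not_or] at hi
        simp only [Function.update_of_ne hi.1]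
        exact h5 i hi.2
    · intro s e
      constructor
      · rintro ⟨r, s1, s2, rfl, hseg, hch⟩
        have h4 : (s1, e j) ∈ SegSet T (0 : Fin 1) j p r := hseg
        rw [hS3 r, Set.mem_sUnion] at h4
        obtain ⟨A, hA, h4⟩ := h4
        obtain ⟨Q, hQ, x, hx, rfl⟩ := (h3 r s2 e).1 hch
        refine ⟨Function.update Q j A, ?_, Function.update x j s1, ?_, ?_⟩
        · rw [Set.mem_iUnion]
          exact ⟨r, ⟨A, Q⟩, ⟨hA, hQ⟩, rfl⟩
        · intro i
          by_cases hi : i = j
          · subst hi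
            simpa using h4
          · simp only [Function.update_of_ne hi]
            exact hx i
        · have h5 := sum_update x j s1
          have h6 : x j = 0 := by
            have := hx j
            rw [(h2 r Q hQ).2 j hj] at this
            exact this
          omega
      · rintro ⟨P, hP, x, hx, rfl⟩
        rw [Set.mem_iUnion] at hP
        obtain ⟨r, ⟨A, Q⟩, ⟨hA, hQ⟩, rfl⟩ := hP
        refine ⟨r, x j, ∑ i, Function.update x j 0 i, ?_, ?_, ?_⟩
        · have h5 := sum_update x j 0
          omega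
        · have h4 : (x j, e j) ∈ SegSet T (0 : Fin 1) j p r := by
            rw [hS3 r, Set.mem_sUnion]
            refine ⟨A, hA, ?_⟩
            have := hx j
            simpa using this
          exact h4
        · rw [h3 r]
          refine ⟨Q, hQ, Function.update x j 0, ?_, rfl⟩
          intro i
          by_cases hi : i = j
          · subst hi
            rw [Function.update_self, (h2 r Q hQ).2 i hj]
            rfl
          · have := hx i
            simp only [Function.update_of_ne hi] at this ⊢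
            exact this

theorem structure_YY {k : ℕ} (hk : 0 < k) (T : Transducer (Fin 1) (Fin k)) :
    ∃ (ι : Type) (_ : Finite ι) (P : ι → Fin k → Set (ℕ × ℕ)), (∀ a i, IsLinearSet (P a i)) ∧
      ∀ e, wd e ∈ T.image SL ↔ e ∈ YY P := by
  classical
  choose PP h1 h2 h3 using fun p q => Ch_rep T (List.finRange k) (List.nodup_finRange k) p q
  have := T.fin
  let QQ : Set (Fin k → Set (ℕ × ℕ)) := ⋃ p, ⋃ q, {P | T.start p ∧ T.final q ∧ P ∈ PP p q}
  have hfin : QQ.Finite := Set.finite_iUnion fun p => Set.finite_iUnion fun q =>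
    (h1 p q).subset fun P hP => hP.2.2
  have hne : List.finRange k ≠ [] := by
    intro h
    have := congrArg List.length h
    simp at this
    omega
  refine ⟨QQ, hfin, fun a => a.1, ?_, ?_⟩
  · rintro ⟨P, hP⟩ i
    simp only [QQ, Set.mem_iUnion] at hP
    obtain ⟨p, q, _, _, hP⟩ := hP
    exact (h2 p q P hP).1 i
  · intro e
    constructor
    · rintro ⟨u, hu, p, q, hp, hq, hpath⟩
      have hrep : u = List.replicate u.length 0 :=
        List.eq_replicate_iff.2 ⟨rfl, fun b _ => Subsingleton.elim _ _⟩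
      rw [hrep] at hpath
      have hch := Ch_of_path hne hpath
      obtain ⟨P, hP, x, hx, hs⟩ := (h3 p q _ e).1 hch
      refine ⟨⟨P, ?_⟩, x, hx, ?_⟩
      · simp only [QQ, Set.mem_iUnion]
        exact ⟨p, q, hp, hq, hP⟩
      · rw [hs]; exact hu
    · rintro ⟨⟨P, hP⟩, x, hx, hs⟩
      simp only [QQ, Set.mem_iUnion] at hP
      obtain ⟨p, q, hp, hq, hP⟩ := hP
      have hch := (h3 p q (∑ i, x i) e).2 ⟨P, hP, x, hx, rfl⟩
      refine ⟨List.replicate (∑ i, x i) 0, ?_, p, q, hp, hq, path_of_Ch hch⟩
      change (List.replicate (∑ i, x i) (0 : Fin 1)).length ∈ SS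
      rw [List.length_replicate]
      exact hs

end Pool.Agent.K3h33.MC
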