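import Pool.Agent.K3h33.MC.Lin
import Pool.Agent.K3h33.MC.Str

/-!
Uniform data for a finite family of products of linear sets.
-/

namespace Pool.Agent.K3h33.MC

open Function

/-- equal, or both at least `m` and congruent modulo `q` -/
def Sim (m q t t' : ℕ) : Prop := t = t' ∨ (m ≤ t ∧ m ≤ t' ∧ t ≡ t' [MOD q])

lemma Sim.symm {m q t t' : ℕ} (h : Sim m q t t') : Sim m q t' t := by
  rcases h with h | ⟨h1, h2, h3⟩
  · exact Or.inl h.symm
  · exact Or.inr ⟨h2, h1, h3.symm⟩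

lemma Sim.mono {m q m' q' t t' : ℕ} (h : Sim m' q' t t') (hm : m ≤ m') (hq : q ∣ q') :
    Sim m q t t' := by
  rcases h with h | ⟨h1, h2, h3⟩
  · exact Or.inl h
  · exact Or.inr ⟨hm.trans h1, hm.trans h2, h3.of_dvd hq⟩

/-- a common preperiod and period for a finite family of semilinear sets of numbers -/
lemma common_period {κ : Type} [Finite κ] (D : κ → Set ℕ) (hD : ∀ a, IsSemilinearSet (D a)) :
    ∃ m q, 0 < q ∧ ∀ a t t', Sim m q t t' → t ∈ D a → t' ∈ D a := by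
  classical
  have := Fintype.ofFinite κ
  have h : ∀ a, ∃ k, ∃ p > 0, ∀ x ≥ k, x ∈ D a ↔ x + p ∈ D a :=
    fun a => Nat.isSemilinearSet_iff_ultimately_periodic.1 (hD a)
  choose k p hp hk using h
  refine ⟨∑ a, k a, ∏ a, p a, Finset.prod_pos fun a _ => hp a, fun a t t' hs ht => ?_⟩
  rcases hs with rfl | ⟨h1, h2, h3⟩
  · exact ht
  · have hka : k a ≤ ∑ a, k a := Finset.single_le_sum (fun _ _ => Nat.zero_le _) (Finset.mem_univ a)
    have hpa : p a ∣ ∏ a, p a := Finset.dvd_prod_of_mem _ (Finset.mem_univ a)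
    have hstep : ∀ n x, k a ≤ x → (x ∈ D a ↔ x + n * p a ∈ D a) := by
      intro n
      induction n with
      | zero => intro x _; simp
      | succ n ih =>
        intro x hx
        rw [ih x hx, hk a (x + n * p a) (by omega)]
        rw [show x + n * p a + p a = x + (n + 1) * p a by ring]
    have h4 : t ≡ t' [MOD p a] := h3.of_dvd hpa
    rcases le_total t t' with hle | hle
    · obtain ⟨c, hc⟩ := (Nat.modEq_iff_dvd' hle).1 h4
      have h5 : t' = t + c * p a := by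
        rw [mul_comm]; omega
      rw [h5]
      exact (hstep c t (by omega)).1 ht
    · obtain ⟨c, hc⟩ := (Nat.modEq_iff_dvd' hle).1 h4.symm
      have h5 : t = t' + c * p a := by
        rw [mul_comm]; omega
      rw [h5] at ht
      exact (hstep c t' (by omega)).2 ht

lemma semilinear_fst {A : Set ℕ} (hA : IsSemilinearSet A) {L : Set (ℕ × ℕ)}
    (hL : IsSemilinearSet L) : IsSemilinearSet {t | ∃ s, s ∈ A ∧ (s, t) ∈ L} := by
  have h1 : IsSemilinearSet ((AddMonoidHom.fst ℕ ℕ) ⁻¹' A) := hA.preimage _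
  have h2 := (hL.inter h1).image (AddMonoidHom.snd ℕ ℕ)
  suffices heq : {t | ∃ s, s ∈ A ∧ (s, t) ∈ L} =
      (AddMonoidHom.snd ℕ ℕ) '' (L ∩ (AddMonoidHom.fst ℕ ℕ) ⁻¹' A) by rw [heq]; exact h2
  ext t
  constructor
  · rintro ⟨s, hs, hst⟩
    exact ⟨(s, t), ⟨hst, hs⟩, rfl⟩
  · rintro ⟨⟨s, t'⟩, ⟨hst, hs⟩, rfl⟩
    exact ⟨s, hs, hst⟩

lemma semilinear_class (q r : ℕ) (hq : 0 < q) : IsSemilinearSet {t | t ≡ r [MOD q]} := by
  rw [Nat.isSemilinearSet_iff_ultimately_periodic]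
  refine ⟨0, q, hq, fun x _ => ?_⟩
  change x ≡ r [MOD q] ↔ x + q ≡ r [MOD q]
  simp [Nat.ModEq]

/-- uniform data for the family `P` -/
structure Dat {ι : Type} {k : ℕ} (P : ι → Fin k → Set (ℕ × ℕ)) where
  /-- the common step -/
  δ : ℕ
  hδ : 0 < δ
  /-- preperiod -/
  m : ℕ
  /-- period -/
  q : ℕ
  hq : 0 < q
  /-- bound of the slopes -/
  C : ℕ
  /-- bound for the flexibility -/
  K : ℕ
  hK : 0 < K
  res : ∀ a i s t t', Sim m q t t' → (s, t) ∈ P a i → ∃ s', s' ≡ s [MOD δ] ∧ (s', t') ∈ P a i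
  small : ∀ a i s t t', s < δ.factorial ^ 2 → Sim m q t t' → (s, t) ∈ P a i → (s, t') ∈ P a i
  horiz : ∀ a i, Horiz (P a i) → ∀ n s t, (s, t) ∈ P a i → (s + n * δ, t) ∈ P a i
  bdd : ∀ a i, ¬ Horiz (P a i) → ∀ s t, (s, t) ∈ P a i → s ≤ C * (t + 1)
  flex : ∀ a i, Flex (P a i) → ∀ s t n, (s, t) ∈ P a i → K * (n + 1) ≤ t →
    (∀ j ≤ n, (s + j * δ, t) ∈ P a i) ∨ (∀ j ≤ n, j * δ ≤ s ∧ (s - j * δ, t) ∈ P a i)
  tri : ∀ a i, ¬ Horiz (P a i) → ¬ Flex (P a i) → Rigid (P a i)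

theorem exists_dat {ι : Type} [Finite ι] {k : ℕ} (P : ι → Fin k → Set (ℕ × ℕ))
    (hP : ∀ a i, IsLinearSet (P a i)) : Nonempty (Dat P) := by
  classical
  have := Fintype.ofFinite ι
  -- the common step
  have h1 : ∀ a i, ∃ d, 0 < d ∧ (Horiz (P a i) → ∀ s t, (s, t) ∈ P a i → (s + d, t) ∈ P a i) ∧
      (Flex (P a i) → ∀ δ, d ∣ δ → 0 < δ → ∃ K, 0 < K ∧
        ∀ s t n, (s, t) ∈ P a i → K * (n + 1) ≤ t →
        (∀ j ≤ n, (s + j * δ, t) ∈ P a i) ∨ (∀ j ≤ n, j * δ ≤ s ∧ (s - j * δ, t) ∈ P a i)) := by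
    intro a i
    obtain ⟨d1, hd1, h1⟩ : ∃ d, 0 < d ∧ (Horiz (P a i) → ∀ s t, (s, t) ∈ P a i →
        (s + d, t) ∈ P a i) := by
      by_cases h : Horiz (P a i)
      · obtain ⟨d, hd, h'⟩ := h
        exact ⟨d, hd, fun _ => h'⟩
      · exact ⟨1, one_pos, fun h' => absurd h' h⟩
    obtain ⟨d2, hd2, h2⟩ : ∃ d, 0 < d ∧ (Flex (P a i) → ∀ δ, d ∣ δ → 0 < δ → ∃ K, 0 < K ∧
        ∀ s t n, (s, t) ∈ P a i → K * (n + 1) ≤ t →
        (∀ j ≤ n, (s + j * δ, t) ∈ P a i) ∨ (∀ j ≤ n, j * δ ≤ s ∧ (s - j * δ, t) ∈ P a i)) := by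
      by_cases h : Flex (P a i)
      · obtain ⟨d, hd, h'⟩ := h
        exact ⟨d, hd, fun _ => h'⟩
      · exact ⟨1, one_pos, fun h' => absurd h' h⟩
    refine ⟨d1 * d2, Nat.mul_pos hd1 hd2, ?_, ?_⟩
    · intro h s t hst
      have : ∀ n, (s + n * d1, t) ∈ P a i := by
        intro n
        induction n with
        | zero => simpa using hst
        | succ n ih =>
          have := h1 h _ _ ih
          rw [show s + (n + 1) * d1 = s + n * d1 + d1 by ring]
          exact this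
      rw [mul_comm]
      exact this d2
    · intro h δ hδ hpos
      exact h2 h δ (dvd_trans (Dvd.intro_left _ rfl) hδ) hpos
  choose d hd hdH hdF using h1
  set δ := ∏ a, ∏ i, d a i with hδdef
  have hδ : 0 < δ := Finset.prod_pos fun a _ => Finset.prod_pos fun i _ => hd a i
  have hdδ : ∀ a i, d a i ∣ δ := by
    intro a i
    have e1 : (∏ i, d a i) ∣ δ := Finset.dvd_prod_of_mem (fun a => ∏ i, d a i) (Finset.mem_univ a)
    exact (Finset.dvd_prod_of_mem (fun i => d a i) (Finset.mem_univ i)).trans e1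
  -- the bounds
  have h2 : ∀ a i, ∃ K, 0 < K ∧ (Flex (P a i) → ∀ s t n, (s, t) ∈ P a i → K * (n + 1) ≤ t →
    (∀ j ≤ n, (s + j * δ, t) ∈ P a i) ∨ (∀ j ≤ n, j * δ ≤ s ∧ (s - j * δ, t) ∈ P a i)) := by
    intro a i
    by_cases h : Flex (P a i)
    · obtain ⟨K, hK, h'⟩ := hdF a i h δ (hdδ a i) hδ
      exact ⟨K, hK, fun _ => h'⟩
    · exact ⟨1, one_pos, fun h' => absurd h' h⟩
  choose K hK hKF using h2
  have h3 : ∀ a i, ∃ C, ¬ Horiz (P a i) → ∀ s t, (s, t) ∈ P a i → s ≤ C * (t + 1) := by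
    intro a i
    by_cases h : Horiz (P a i)
    · exact ⟨0, fun h' => absurd h h'⟩
    · rcases trich (hP a i) with h' | ⟨⟨C, hC⟩, _⟩ | ⟨⟨C, hC⟩, _⟩
      · exact absurd h' h
      · exact ⟨C, fun _ => hC⟩
      · exact ⟨C, fun _ => hC⟩
  choose C hC using h3
  -- the periods
  obtain ⟨m1, q1, hq1, hres⟩ := common_period (κ := ι × Fin k × Fin δ)
    (fun x => {t | ∃ s, s ∈ {s | s ≡ x.2.2 [MOD δ]} ∧ (s, t) ∈ P x.1 x.2.1})
    (fun x => semilinear_fst (semilinear_class δ _ hδ) (hP _ _).isSemilinearSet)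
  obtain ⟨m2, q2, hq2, hsmall⟩ := common_period (κ := ι × Fin k × Fin (δ.factorial ^ 2))
    (fun x => {t | ∃ s, s ∈ ({(x.2.2 : ℕ)} : Set ℕ) ∧ (s, t) ∈ P x.1 x.2.1})
    (fun x => semilinear_fst (IsSemilinearSet.singleton _) (hP _ _).isSemilinearSet)
  have hKle : ∀ a i, K a i ≤ ∑ a, ∑ i, K a i + 1 := by
    intro a i
    have e1 : K a i ≤ ∑ i, K a i :=
      Finset.single_le_sum (f := fun i => K a i) (fun _ _ => Nat.zero_le _) (Finset.mem_univ i)
    have e2 : ∑ i, K a i ≤ ∑ a, ∑ i, K a i :=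
      Finset.single_le_sum (f := fun a => ∑ i, K a i) (fun _ _ => Nat.zero_le _)
        (Finset.mem_univ a)
    omega
  have hCle : ∀ a i, C a i ≤ ∑ a, ∑ i, C a i := by
    intro a i
    have e1 : C a i ≤ ∑ i, C a i :=
      Finset.single_le_sum (f := fun i => C a i) (fun _ _ => Nat.zero_le _) (Finset.mem_univ i)
    have e2 : ∑ i, C a i ≤ ∑ a, ∑ i, C a i :=
      Finset.single_le_sum (f := fun a => ∑ i, C a i) (fun _ _ => Nat.zero_le _)
        (Finset.mem_univ a)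
    omega
  refine ⟨{
    δ := δ
    hδ := hδ
    m := max m1 m2
    q := q1 * q2
    hq := Nat.mul_pos hq1 hq2
    C := ∑ a, ∑ i, C a i
    K := ∑ a, ∑ i, K a i + 1
    hK := by omega
    res := ?_
    small := ?_
    horiz := ?_
    bdd := ?_
    flex := ?_
    tri := ?_ }⟩
  · intro a i s t t' hs hst
    have h4 := hres (a, i, ⟨s % δ, Nat.mod_lt _ hδ⟩) t t'
      (hs.mono (le_max_left _ _) (Dvd.intro _ rfl)) ⟨s, (Nat.mod_modEq s δ).symm, hst⟩
    obtain ⟨s', hs', h5⟩ := h4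
    exact ⟨s', Nat.ModEq.trans hs' (Nat.mod_modEq s δ), h5⟩
  · intro a i s t t' hlt hs hst
    have h4 := hsmall (a, i, ⟨s, hlt⟩) t t'
      (hs.mono (le_max_right _ _) (Dvd.intro_left _ rfl)) ⟨s, rfl, hst⟩
    obtain ⟨s', hs', h5⟩ := h4
    obtain rfl : s' = s := hs'
    exact h5
  · intro a i h n s t hst
    obtain ⟨c, hc⟩ := hdδ a i
    have : ∀ n, (s + n * d a i, t) ∈ P a i := by
      intro n
      induction n with
      | zero => simpa using hst
      | succ n ih =>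
        have := hdH a i h _ _ ih
        rw [show s + (n + 1) * d a i = s + n * d a i + d a i by ring]
        exact this
    rw [hc, show n * (d a i * c) = n * c * d a i by ring]
    exact this _
  · intro a i h s t hst
    exact (hC a i h s t hst).trans (Nat.mul_le_mul_right _ (hCle a i))
  · intro a i h s t n hst hle
    exact hKF a i h s t n hst ((Nat.mul_le_mul_right _ (hKle a i)).trans hle)
  · intro a i h h'
    rcases trich (hP a i) with h1 | ⟨_, h1⟩ | ⟨_, h1⟩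
    · exact absurd h1 h
    · exact absurd h1 h'
    · exact h1

end Pool.Agent.K3h33.MC
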