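import Pool.Agent.R679.Tr1

/-!
Elementary transducers, and the image of a regular language.
-/

namespace Pool.Agent.K3h33.MC

open Pool.Agent.R679.Tr

variable {α β γ : Type}

lemma rel_swap (T : Transducer α β) (u : List α) (v : List β) : T.swap.rel v u ↔ T.rel u v := by
  constructor
  · rintro ⟨p, q, hp, hq, h⟩
    exact ⟨p, q, hp, hq, h.unswap⟩
  · rintro ⟨p, q, hp, hq, h⟩
    exact ⟨p, q, hp, hq, h.swap⟩

/-! ### Morphisms -/

/-- the possible remainders -/
def Sfx (f : α → List β) : Set (List β) := ⋃ a, {l | l ∈ (f a).tails}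

lemma finite_Sfx [Finite α] (f : α → List β) : (Sfx f).Finite :=
  Set.finite_iUnion fun _ => List.finite_toSet _

/-- the transducer of a morphism -/
def morT [Finite α] (f : α → List β) : Transducer α β where
  σ := Option (Sfx f)
  fin := by
    have := (finite_Sfx f).to_subtype
    infer_instance
  trans p x y q :=
    (∃ a, ∃ z : Sfx f, p = none ∧ x = some a ∧ y = none ∧ q = some z ∧ z.1 = f a) ∨
    (∃ b, ∃ z z' : Sfx f, p = some z ∧ x = none ∧ y = some b ∧ q = some z' ∧ z.1 = b :: z'.1) ∨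
    (∃ z : Sfx f, p = some z ∧ x = none ∧ y = none ∧ q = none ∧ z.1 = [])
  start p := p = none
  final p := p = none

/-- what remains to be written -/
def rest {f : α → List β} : Option (Sfx f) → List β
  | none => []
  | some z => z.1

lemma morT_sound [Finite α] {f : α → List β} {p q : (morT f).σ} {u : List α} {v : List β}
    (h : Path (morT f) p u v q) : q = none → v = rest p ++ u.flatMap f := by
  induction h with
  | nil p => rintro rfl; simp [rest]
  | @cons p p' q x y u v ht _ ih =>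
    intro hq
    have := ih hq
    rcases ht with ⟨a, z, rfl, rfl, rfl, rfl, hz⟩ | ⟨b, z, z', rfl, rfl, rfl, rfl, hz⟩ |
      ⟨z, rfl, rfl, rfl, rfl, hz⟩
    · rw [this]
      simp [rest, hz]
    · rw [this]
      simp [rest, hz]
    · rw [this]
      simp [rest, hz]

lemma tail_mem_Sfx {f : α → List β} {b : β} {l : List β} (h : b :: l ∈ Sfx f) : l ∈ Sfx f := by
  simp only [Sfx, Set.mem_iUnion, Set.mem_ofPred_eq, List.mem_tails] at h ⊢
  obtain ⟨a, ha⟩ := h
  exact ⟨a, (List.suffix_cons b l).trans ha⟩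

lemma morT_write [Finite α] {f : α → List β} : ∀ (l : List β) (hl : l ∈ Sfx f),
    Path (morT f) (some ⟨l, hl⟩) [] l none := by
  intro l
  induction l with
  | nil =>
    intro hl
    have ht : (morT f).trans (some ⟨[], hl⟩) none none none :=
      Or.inr (Or.inr ⟨⟨[], hl⟩, rfl, rfl, rfl, rfl, rfl⟩)
    simpa using Path.cons ht (Path.nil (T := morT f) none)
  | cons b l ih =>
    intro hl
    have ht : (morT f).trans (some ⟨b :: l, hl⟩) none (some b) (some ⟨l, tail_mem_Sfx hl⟩) :=
      Or.inr (Or.inl ⟨b, ⟨b :: l, hl⟩, ⟨l, tail_mem_Sfx hl⟩, rfl, rfl, rfl, rfl, rfl⟩)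
    simpa using Path.cons ht (ih (tail_mem_Sfx hl))

lemma morT_complete [Finite α] (f : α → List β) (u : List α) :
    Path (morT f) none u (u.flatMap f) none := by
  induction u with
  | nil => exact Path.nil _
  | cons a u ih =>
    have hmem : f a ∈ Sfx f := by
      simp only [Sfx, Set.mem_iUnion, Set.mem_ofPred_eq, List.mem_tails]
      exact ⟨a, List.suffix_refl _⟩
    have ht : (morT f).trans none (some a) none (some ⟨f a, hmem⟩) :=
      Or.inl ⟨a, ⟨f a, hmem⟩, rfl, rfl, rfl, rfl, rfl⟩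
    have h1 := Path.cons ht (morT_write (f a) hmem)
    have h2 := h1.append ih
    simpa using h2

lemma rel_morT [Finite α] (f : α → List β) (u : List α) (v : List β) :
    (morT f).rel u v ↔ v = u.flatMap f := by
  constructor
  · rintro ⟨p, q, hp, hq, h⟩
    have := morT_sound h hq
    rw [show p = none from hp] at this
    simpa [rest] using this
  · rintro rfl
    exact ⟨none, none, rfl, rfl, morT_complete f u⟩

/-! ### Union -/

/-- union of two transducers -/
def unT (T T' : Transducer α β) : Transducer α β where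
  σ := T.σ ⊕ T'.σ
  fin := by
    have := T.fin
    have := T'.fin
    infer_instance
  trans p x y q := (∃ p' q', p = .inl p' ∧ q = .inl q' ∧ T.trans p' x y q') ∨
    (∃ p' q', p = .inr p' ∧ q = .inr q' ∧ T'.trans p' x y q')
  start p := (∃ p', p = .inl p' ∧ T.start p') ∨ ∃ p', p = .inr p' ∧ T'.start p'
  final p := (∃ p', p = .inl p' ∧ T.final p') ∨ ∃ p', p = .inr p' ∧ T'.final p'

lemma unT_inl {T T' : Transducer α β} {p q : (unT T T').σ} {u : List α} {v : List β}
    (h : Path (unT T T') p u v q) : (∀ p', p = .inl p' → ∃ q', q = .inl q' ∧ Path T p' u v q') ∧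
      (∀ p', p = .inr p' → ∃ q', q = .inr q' ∧ Path T' p' u v q') := by
  induction h with
  | nil p => exact ⟨fun p' h => ⟨p', h, Path.nil _⟩, fun p' h => ⟨p', h, Path.nil _⟩⟩
  | @cons p p' q x y u v ht _ ih =>
    constructor
    · rintro p1 rfl
      rcases ht with ⟨p2, q2, h1, rfl, h3⟩ | ⟨p2, q2, h1, _, _⟩
      · cases h1
        obtain ⟨q', rfl, h⟩ := ih.1 q2 rfl
        exact ⟨q', rfl, Path.cons h3 h⟩
      · cases h1
    · rintro p1 rfl
      rcases ht with ⟨p2, q2, h1, _, _⟩ | ⟨p2, q2, h1, rfl, h3⟩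
      · cases h1
      · cases h1
        obtain ⟨q', rfl, h⟩ := ih.2 q2 rfl
        exact ⟨q', rfl, Path.cons h3 h⟩

lemma unT_of_left {T T' : Transducer α β} {p q : T.σ} {u : List α} {v : List β}
    (h : Path T p u v q) : Path (unT T T') (.inl p) u v (.inl q) := by
  induction h with
  | nil p => exact Path.nil (T := unT T T') _
  | @cons p p' q x y u v ht _ ih =>
    have ht' : (unT T T').trans (.inl p) x y (.inl p') := Or.inl ⟨_, _, rfl, rfl, ht⟩
    exact Path.cons ht' ih

lemma unT_of_right {T T' : Transducer α β} {p q : T'.σ} {u : List α} {v : List β}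
    (h : Path T' p u v q) : Path (unT T T') (.inr p) u v (.inr q) := by
  induction h with
  | nil p => exact Path.nil (T := unT T T') _
  | @cons p p' q x y u v ht _ ih =>
    have ht' : (unT T T').trans (.inr p) x y (.inr p') := Or.inr ⟨_, _, rfl, rfl, ht⟩
    exact Path.cons ht' ih

lemma rel_unT (T T' : Transducer α β) (u : List α) (v : List β) :
    (unT T T').rel u v ↔ T.rel u v ∨ T'.rel u v := by
  constructor
  · rintro ⟨p, q, hp, hq, h⟩
    rcases hp with ⟨p', rfl, hp⟩ | ⟨p', rfl, hp⟩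
    · left
      obtain ⟨q', rfl, h'⟩ := (unT_inl h).1 p' rfl
      rcases hq with ⟨q2, h2, hq⟩ | ⟨q2, h2, _⟩
      · cases h2
        exact ⟨p', q', hp, hq, h'⟩
      · cases h2
    · right
      obtain ⟨q', rfl, h'⟩ := (unT_inl h).2 p' rfl
      rcases hq with ⟨q2, h2, _⟩ | ⟨q2, h2, hq⟩
      · cases h2
      · cases h2
        exact ⟨p', q', hp, hq, h'⟩
  · rintro (⟨p, q, hp, hq, h⟩ | ⟨p, q, hp, hq, h⟩)
    · exact ⟨.inl p, .inl q, Or.inl ⟨p, rfl, hp⟩, Or.inl ⟨q, rfl, hq⟩, unT_of_left h⟩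
    · exact ⟨.inr p, .inr q, Or.inr ⟨p, rfl, hp⟩, Or.inr ⟨q, rfl, hq⟩, unT_of_right h⟩

/-! ### The identity on `0 1^* 2` -/

/-- the identity on `0 1^* 2` -/
def midT : Transducer (Fin 3) (Fin 3) where
  σ := Fin 3
  fin := inferInstance
  trans p x y q := (p = 0 ∧ x = some 0 ∧ y = some 0 ∧ q = 1) ∨
    (p = 1 ∧ x = some 1 ∧ y = some 1 ∧ q = 1) ∨ (p = 1 ∧ x = some 2 ∧ y = some 2 ∧ q = 2)
  start p := p = 0
  final p := p = 2

lemma f20 : (2 : Fin 3) ≠ 0 := by decide
lemma f21 : (2 : Fin 3) ≠ 1 := by decide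
lemma f01 : (0 : Fin 3) ≠ 1 := by decide
lemma f02 : (0 : Fin 3) ≠ 2 := by decide
lemma f10 : (1 : Fin 3) ≠ 0 := by decide
lemma f12 : (1 : Fin 3) ≠ 2 := by decide

lemma midT_sound {p q : midT.σ} {u v : List (Fin 3)} (h : Path midT p u v q) : q = (2 : Fin 3) →
    u = v ∧ (p = (0 : Fin 3) → ∃ n, u = 0 :: (List.replicate n 1 ++ [2])) ∧
    (p = (1 : Fin 3) → ∃ n, u = List.replicate n 1 ++ [2]) ∧ (p = (2 : Fin 3) → u = []) := by
  induction h with
  | nil p =>
    rintro rfl
    exact ⟨rfl, fun h => absurd h f20, fun h => absurd h f21, fun _ => rfl⟩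
  | @cons p p' q x y u v ht _ ih =>
    intro hq
    obtain ⟨h1, _, h3, h4⟩ := ih hq
    rcases ht with ⟨rfl, rfl, rfl, rfl⟩ | ⟨rfl, rfl, rfl, rfl⟩ | ⟨rfl, rfl, rfl, rfl⟩
    · obtain ⟨n, rfl⟩ := h3 rfl
      exact ⟨by rw [h1], fun _ => ⟨n, rfl⟩, fun h => absurd h f01, fun h => absurd h f02⟩
    · obtain ⟨n, rfl⟩ := h3 rfl
      refine ⟨by rw [h1], fun h => absurd h f10, fun _ => ⟨n + 1, ?_⟩, fun h => absurd h f12⟩
      simp [List.replicate_succ]
    · have h5 := h4 rfl
      subst h5
      exact ⟨by rw [h1], fun h => absurd h f10, fun _ => ⟨0, rfl⟩, fun h => absurd h f12⟩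

lemma rel_midT (u v : List (Fin 3)) :
    midT.rel u v ↔ u = v ∧ ∃ n, u = 0 :: (List.replicate n 1 ++ [2]) := by
  constructor
  · rintro ⟨p, q, hp, hq, h⟩
    obtain ⟨h1, h2, _⟩ := midT_sound h hq
    exact ⟨h1, h2 hp⟩
  · rintro ⟨rfl, n, rfl⟩
    refine ⟨(0 : Fin 3), (2 : Fin 3), rfl, rfl, ?_⟩
    have ht0 : midT.trans (0 : Fin 3) (some 0) (some 0) (1 : Fin 3) := Or.inl ⟨rfl, rfl, rfl, rfl⟩
    have ht1 : midT.trans (1 : Fin 3) (some 1) (some 1) (1 : Fin 3) :=
      Or.inr (Or.inl ⟨rfl, rfl, rfl, rfl⟩)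
    have ht2 : midT.trans (1 : Fin 3) (some 2) (some 2) (2 : Fin 3) :=
      Or.inr (Or.inr ⟨rfl, rfl, rfl, rfl⟩)
    have h1 : ∀ n, Path midT (1 : Fin 3) (List.replicate n 1 ++ [2]) (List.replicate n 1 ++ [2])
        (2 : Fin 3) := by
      intro n
      induction n with
      | zero => simpa using Path.cons ht2 (Path.nil (T := midT) (2 : Fin 3))
      | succ n ih => simpa [List.replicate_succ] using Path.cons ht1 ih
    simpa using Path.cons ht0 (h1 n)

/-! ### Constant relations -/

/-- reads anything, writes a word of length in `S`, at most `s0` -/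
def cstT (α : Type) (S : Set ℕ) (s0 : ℕ) : Transducer α (Fin 1) where
  σ := Fin (s0 + 1)
  fin := inferInstance
  trans p x y q := (x ≠ none ∧ y = none ∧ p = q) ∨ (x = none ∧ y ≠ none ∧ (q : ℕ) = p + 1)
  start p := p = 0
  final p := (p : ℕ) ∈ S

lemma cstT_sound {S : Set ℕ} {s0 : ℕ} {p q : (cstT α S s0).σ} {u : List α}
    {v : List (Fin 1)} (h : Path (cstT α S s0) p u v q) :
    (q : Fin (s0 + 1)).1 = (p : Fin (s0 + 1)).1 + v.length := by
  induction h with
  | nil p => simp
  | @cons p p' q x y u v ht _ ih =>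
    rcases ht with ⟨_, rfl, rfl⟩ | ⟨rfl, hy, h⟩
    · simpa using ih
    · cases y with
      | none => exact absurd rfl hy
      | some y =>
        rw [ih, h]
        simp
        omega

lemma rel_cstT (S : Set ℕ) (s0 : ℕ) (u : List α) (v : List (Fin 1)) :
    (cstT α S s0).rel u v ↔ v.length ∈ S ∧ v.length ≤ s0 := by
  constructor
  · rintro ⟨p, q, hp, hq, h⟩
    have h1 := cstT_sound h
    have h2 : (p : Fin (s0 + 1)).1 = 0 := by rw [show p = (0 : Fin (s0 + 1)) from hp]; rfl
    have h3 : (q : Fin (s0 + 1)).1 ∈ S := hq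
    have h4 := (q : Fin (s0 + 1)).2
    rw [h1, h2, zero_add] at h3 h4
    exact ⟨h3, by omega⟩
  · rintro ⟨h1, h2⟩
    have hread : ∀ u : List α, Path (cstT α S s0) (0 : Fin (s0 + 1)) u [] (0 : Fin (s0 + 1)) := by
      intro u
      induction u with
      | nil => exact Path.nil (T := cstT α S s0) _
      | cons a u ih =>
        have ht : (cstT α S s0).trans (0 : Fin (s0 + 1)) (some a) none (0 : Fin (s0 + 1)) :=
          Or.inl ⟨by simp, rfl, rfl⟩
        simpa using Path.cons ht ih
    have hwrite : ∀ (v : List (Fin 1)) (p : ℕ) (hp : p + v.length < s0 + 1),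
        Path (cstT α S s0) (⟨p, by omega⟩ : Fin (s0 + 1)) [] v (⟨p + v.length, hp⟩ : Fin (s0 + 1)) := by
      intro v
      induction v with
      | nil => intro p hp; exact Path.nil (T := cstT α S s0) _
      | cons b v ih =>
        intro p hp
        rw [List.length_cons] at hp
        have ht : (cstT α S s0).trans (⟨p, by omega⟩ : Fin (s0 + 1)) none (some b)
            (⟨p + 1, by omega⟩ : Fin (s0 + 1)) := Or.inr ⟨rfl, by simp, rfl⟩
        have h3 := Path.cons ht (ih (p + 1) (by omega))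
        have h4 : (⟨p + 1 + v.length, by omega⟩ : Fin (s0 + 1)) =
            ⟨p + (b :: v).length, by rw [List.length_cons]; omega⟩ := by
          apply Fin.ext; simp only [List.length_cons]; omega
        rw [h4] at h3
        simpa using h3
    refine ⟨(0 : Fin (s0 + 1)), (⟨0 + v.length, by omega⟩ : Fin (s0 + 1)), rfl, ?_, ?_⟩
    · change 0 + v.length ∈ S
      rwa [zero_add]
    · have := (hread u).append (hwrite v 0 (by omega))
      simpa using this

/-! ### Sorted words -/

/-- the identity on the sorted words -/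
def srtT (k : ℕ) : Transducer (Fin k) (Fin k) where
  σ := Fin k
  fin := inferInstance
  trans p x y q := x = some q ∧ y = some q ∧ p ≤ q
  start _ := True
  final _ := True

lemma srtT_sound {k : ℕ} {p q : (srtT k).σ} {u v : List (Fin k)} (h : Path (srtT k) p u v q) :
    u = v ∧ (∀ a ∈ u, LE.le (α := Fin k) p a) ∧ u.Pairwise (· ≤ ·) := by
  induction h with
  | nil p => simp
  | @cons p p' q x y u v ht _ ih =>
    obtain ⟨rfl, rfl, hle⟩ := ht
    obtain ⟨rfl, h2, h3⟩ := ih
    refine ⟨rfl, ?_, ?_⟩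
    · intro a ha
      simp only [Option.toList_some, List.cons_append, List.nil_append, List.mem_cons] at ha
      rcases ha with rfl | ha
      · exact hle
      · exact hle.trans (h2 a ha)
    · simp only [Option.toList_some, List.cons_append, List.nil_append, List.pairwise_cons]
      exact ⟨h2, h3⟩

lemma rel_srtT {k : ℕ} (hk : 0 < k) (u v : List (Fin k)) :
    (srtT k).rel u v ↔ u = v ∧ u.Pairwise (· ≤ ·) := by
  constructor
  · rintro ⟨p, q, _, _, h⟩
    obtain ⟨h1, _, h3⟩ := srtT_sound h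
    exact ⟨h1, h3⟩
  · rintro ⟨rfl, hs⟩
    have key : ∀ (u : List (Fin k)), u.Pairwise (· ≤ ·) → ∀ p : Fin k, (∀ a ∈ u, p ≤ a) →
        ∃ q : Fin k, Path (srtT k) p u u q := by
      intro u
      induction u with
      | nil => intro _ p _; exact ⟨p, Path.nil (T := srtT k) p⟩
      | cons a u ih =>
        intro hs p hp
        rw [List.pairwise_cons] at hs
        obtain ⟨q, hq⟩ := ih hs.2 a hs.1
        have ht : (srtT k).trans p (some a) (some a) a :=
          ⟨rfl, rfl, hp a (List.mem_cons_self)⟩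
        exact ⟨q, by simpa using Path.cons ht hq⟩
    have : NeZero k := ⟨hk.ne'⟩
    obtain ⟨q, hq⟩ := key u hs 0 (fun a _ => Fin.zero_le a)
    exact ⟨(0 : Fin k), q, trivial, trivial, hq⟩

/-! ### Regular languages -/

theorem image_regular (T : Transducer α β) {L : Language α} (hL : L.IsRegular) :
    (T.image L).IsRegular := by
  classical
  obtain ⟨σ, hσ, M, rfl⟩ := hL
  apply Language.IsRegular.of_finite_range_leftQuotient
  have := T.fin
  -- the left quotient is determined by the set of the reachable pairs of states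
  let R : List β → Set (σ × T.σ) := fun w =>
    {x | ∃ u p, T.start p ∧ Path T p u w x.2 ∧ M.evalFrom M.start u = x.1}
  let G : Set (σ × T.σ) → Language β := fun X =>
    {v | ∃ x ∈ X, ∃ u q, T.final q ∧ Path T x.2 u v q ∧ M.evalFrom x.1 u ∈ M.accept}
  have hfac : ∀ w, (T.image M.accepts).leftQuotient w = G (R w) := by
    intro w
    ext v
    constructor
    · rintro ⟨u, hu, p, q, hp, hq, h⟩
      obtain ⟨r, u1, u2, rfl, h1, h2⟩ := h.split_out rfl
      refine ⟨(M.evalFrom M.start u1, r), ⟨u1, p, hp, h1, rfl⟩, u2, q, hq, h2, ?_⟩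
      have : M.evalFrom M.start (u1 ++ u2) ∈ M.accept := hu
      rwa [DFA.evalFrom_of_append] at this
    · rintro ⟨⟨s, r⟩, ⟨u1, p, hp, h1, h2⟩, u2, q, hq, h3, h4⟩
      refine ⟨u1 ++ u2, ?_, p, q, hp, hq, h1.append h3⟩
      change M.evalFrom M.start (u1 ++ u2) ∈ M.accept
      rw [DFA.evalFrom_of_append, h2]
      exact h4
  have : Finite (Set (σ × T.σ)) := inferInstance
  apply (Set.finite_range G).subset
  rintro _ ⟨w, rfl⟩
  exact ⟨R w, (hfac w).symm⟩

end Pool.Agent.K3h33.MC
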