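import Pool.Agent.K3h33.MC.Un
import Pool.Agent.K3h33.MC.Ops

/-!
The cone generated by the unary language of `SS` is minimal with respect to bounded languages.
-/

namespace Pool.Agent.K3h33.MC

open Pool.Agent.R679.Tr Function

/-! ### Sorted words and exponents -/

lemma count_wd {k : ℕ} (e : Fin k → ℕ) (i : Fin k) : (wd e).count i = e i := by
  classical
  unfold wd wl
  rw [List.count_flatMap]
  have h : (List.map (List.count i ∘ fun i => List.replicate (e i) i) (List.finRange k)).sum =
      ∑ i', if i' = i then e i' else 0 := by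
    rw [← List.ofFn_eq_map, List.sum_ofFn]
    apply Finset.sum_congr rfl
    intro x _
    simp [List.count_replicate]
  rw [h]
  simp

lemma wd_inj {k : ℕ} {e e' : Fin k → ℕ} (h : wd e = wd e') : e = e' := by
  funext i
  rw [← count_wd e i, h, count_wd]

lemma pairwise_wd {k : ℕ} (e : Fin k → ℕ) : (wd e).Pairwise (· ≤ ·) := by
  unfold wd wl
  rw [List.pairwise_flatMap]
  constructor
  · intro a _
    exact List.pairwise_replicate_of_refl
  · apply (List.pairwise_lt_finRange k).imp
    intro a b hab x hx y hy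
    rw [List.eq_of_mem_replicate hx, List.eq_of_mem_replicate hy]
    exact hab.le

lemma eq_wd {k : ℕ} {u : List (Fin k)} (h : u.Pairwise (· ≤ ·)) :
    u = wd fun i => u.count i := by
  apply List.Perm.eq_of_pairwise' h (pairwise_wd _)
  rw [List.perm_iff_count]
  intro a
  rw [count_wd]

/-- the strictly bounded language of a set of exponents -/
def lang {k : ℕ} (Y : Set (Fin k → ℕ)) : Language (Fin k) := {u | ∃ e ∈ Y, u = wd e}

lemma mem_lang {k : ℕ} {Y : Set (Fin k → ℕ)} {u : List (Fin k)} :
    u ∈ lang Y ↔ u.Pairwise (· ≤ ·) ∧ (fun i => u.count i) ∈ Y := by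
  constructor
  · rintro ⟨e, he, rfl⟩
    refine ⟨pairwise_wd e, ?_⟩
    have : (fun i => (wd e).count i) = e := by funext i; exact count_wd e i
    rw [this]; exact he
  · rintro ⟨h1, h2⟩
    exact ⟨_, h2, eq_wd h1⟩

/-- reduction of an exponent -/
def red (m q : ℕ) (x : ℕ) : ℕ := if x < m then x else m + (x - m) % q

lemma sim_of_red {m q x y : ℕ} (h : red m q x = red m q y) : Sim m q x y := by
  unfold red at h
  split_ifs at h with h1 h2 h2
  · exact Or.inl h
  · omega
  · omega
  · right
    refine ⟨by omega, by omega, ?_⟩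
    have h3 : (x - m) % q = (y - m) % q := by omega
    have h4 : x - m + m ≡ y - m + m [MOD q] := Nat.ModEq.add_right m h3
    rwa [Nat.sub_add_cancel (by omega), Nat.sub_add_cancel (by omega)] at h4

lemma red_lt {m q x : ℕ} (hq : 0 < q) : red m q x < m + q := by
  unfold red
  split_ifs
  · omega
  · have := Nat.mod_lt (x - m) hq
    omega

lemma Sim.add_right {m q x y : ℕ} (h : Sim m q x y) (v : ℕ) : Sim m q (x + v) (y + v) := by
  rcases h with h | ⟨h1, h2, h3⟩
  · exact Or.inl (by rw [h])
  · exact Or.inr ⟨by omega, by omega, h3.add_right v⟩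

theorem regular_of_rec {k : ℕ} {Y : Set (Fin k → ℕ)} (hY : Rec Y) : (lang Y).IsRegular := by
  classical
  obtain ⟨m, q, hq, hY⟩ := hY
  apply Language.IsRegular.of_finite_range_leftQuotient
  let φ : List (Fin k) → Prop × Finset (Fin k) × (Fin k → Fin (m + q)) := fun w =>
    (w.Pairwise (· ≤ ·), w.toFinset, fun i => ⟨red m q (w.count i), red_lt hq⟩)
  have hφ : ∀ w1 w2, φ w1 = φ w2 → (lang Y).leftQuotient w1 = (lang Y).leftQuotient w2 := by
    have key : ∀ w1 w2, φ w1 = φ w2 → ∀ v, v ∈ (lang Y).leftQuotient w1 →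
        v ∈ (lang Y).leftQuotient w2 := by
      intro w1 w2 h v hv
      simp only [φ, Prod.mk.injEq] at h
      obtain ⟨h1, h2, h3⟩ := h
      change w1 ++ v ∈ lang Y at hv
      change w2 ++ v ∈ lang Y
      rw [mem_lang] at hv ⊢
      obtain ⟨h4, h5⟩ := hv
      rw [List.pairwise_append] at h4
      refine ⟨?_, ?_⟩
      · rw [List.pairwise_append]
        refine ⟨h1 ▸ h4.1, h4.2.1, fun a ha b hb => h4.2.2 a ?_ b hb⟩
        rw [← List.mem_toFinset, h2, List.mem_toFinset]
        exact ha
      · apply hY _ _ _ h5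
        intro i
        have h6 := congrFun h3 i
        rw [Fin.mk.injEq] at h6
        simp only [List.count_append]
        exact (sim_of_red h6).add_right _
    intro w1 w2 h
    ext v
    exact ⟨key w1 w2 h v, key w2 w1 h.symm v⟩
  have hft : Function.FactorsThrough (lang Y).leftQuotient φ := fun w1 w2 h => hφ w1 w2 h
  obtain ⟨F, hF⟩ := (Function.factorsThrough_iff _).1 hft
  rw [hF]
  exact (Set.finite_range F).subset (Set.range_comp_subset_range _ _)

/-! ### Lines -/

lemma wd_update {k : ℕ} (e : Fin k → ℕ) (j : Fin k) :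
    ∃ u w : List (Fin k), ∀ t, wd (update e j t) = u ++ (List.replicate t j ++ w) := by
  classical
  obtain ⟨l1, l2, hl⟩ := List.append_of_mem (List.mem_finRange j)
  have hnd := List.nodup_finRange k
  rw [hl] at hnd
  have h1 : j ∉ l1 := fun h => by
    have := List.disjoint_of_nodup_append hnd
    exact this h (List.mem_cons_self)
  have h2 : j ∉ l2 := (List.nodup_cons.1 (List.Nodup.of_append_right hnd)).1
  refine ⟨wl l1 e, wl l2 e, fun t => ?_⟩
  unfold wd wl
  rw [hl, List.flatMap_append, List.flatMap_cons, update_self]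
  congr 1
  · apply List.flatMap_congr
    intro x hx
    have hne : x ≠ j := by rintro rfl; exact h1 hx
    rw [update_of_ne hne]
  · congr 1
    apply List.flatMap_congr
    intro x hx
    have hne : x ≠ j := by rintro rfl; exact h2 hx
    rw [update_of_ne hne]

lemma rel_comp {α β γ : Type} (S : Transducer α β) (T : Transducer β γ) (u : List α)
    (w : List γ) : (S.comp T).rel u w ↔ ∃ v, S.rel u v ∧ T.rel v w := by
  have h := image_comp S T ({u} : Language α)
  have h1 : w ∈ T.image (S.image ({u} : Language α)) ↔ w ∈ (S.comp T).image {u} := by rw [h]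
  constructor
  · intro h2
    obtain ⟨v, ⟨u', hu', hv⟩, hw⟩ := h1.2 ⟨u, rfl, h2⟩
    have : u' = u := hu'
    subst this
    exact ⟨v, hv, hw⟩
  · rintro ⟨v, hv, hw⟩
    obtain ⟨u', hu', h2⟩ := h1.1 ⟨v, ⟨u, rfl, hv⟩, hw⟩
    have : u' = u := hu'
    subst this
    exact h2

lemma flatMap_replicate {α β : Type} (f : α → List β) (a : α) (b : β) (P : ℕ)
    (h : f a = List.replicate P b) (n : ℕ) :
    (List.replicate n a).flatMap f = List.replicate (P * n) b := by
  induction n with
  | zero => simp
  | succ n ih =>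
    rw [List.replicate_succ, List.flatMap_cons, ih, h, ← List.replicate_add]
    congr 1
    ring

/-- the transducer that extracts an affine copy -/
def exT {k : ℕ} (u w : List (Fin k)) (j : Fin k) (t0 P0 s0 Q0 : ℕ) : Transducer (Fin k) (Fin 1) :=
  unT (((morT ![u ++ List.replicate t0 j, List.replicate P0 j, w]).swap.comp midT).comp
    (morT ![List.replicate s0 0, List.replicate Q0 0, []])) (cstT (Fin k) SS s0)

theorem exT_image {k : ℕ} {Y : Set (Fin k → ℕ)} {e : Fin k → ℕ} {j : Fin k}
    {u w : List (Fin k)} (huw : ∀ t, wd (update e j t) = u ++ (List.replicate t j ++ w))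
    {t0 P0 s0 Q0 : ℕ}
    (h : ∀ n, update e j (t0 + P0 * n) ∈ Y ↔ s0 + Q0 * n ∈ SS) (hs0 : s0 ∈ SS)
    (hall : ∀ s ∈ SS, s0 ≤ s → ∃ n, s = s0 + Q0 * n) :
    (exT u w j t0 P0 s0 Q0).image (lang Y) = SL := by
  have hlang : ∀ e, wd e ∈ lang Y ↔ e ∈ Y := by
    intro e
    constructor
    · rintro ⟨e', he', h'⟩
      rw [wd_inj h']; exact he'
    · intro he; exact ⟨e, he, rfl⟩
  have hfl : ∀ n, (0 :: (List.replicate n 1 ++ [2]) : List (Fin 3)).flatMap
      ![u ++ List.replicate t0 j, List.replicate P0 j, w] =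
      wd (update e j (t0 + P0 * n)) := by
    intro n
    rw [huw, List.flatMap_cons, List.flatMap_append, flatMap_replicate _ 1 j P0 rfl,
      List.replicate_add]
    have h2 : ([2] : List (Fin 3)).flatMap
        ![u ++ List.replicate t0 j, List.replicate P0 j, w] = w := by simp
    rw [h2]
    simp only [List.append_assoc]
    change (u ++ List.replicate t0 j) ++ (List.replicate (P0 * n) j ++ w) = _
    rw [List.append_assoc]
  have hrel : ∀ (x : List (Fin k)) (v : List (Fin 1)),
      (exT u w j t0 P0 s0 Q0).rel x v ↔ (∃ n, x = wd (update e j (t0 + P0 * n)) ∧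
        v = List.replicate (s0 + Q0 * n) 0) ∨ (v.length ∈ SS ∧ v.length ≤ s0) := by
    intro x v
    unfold exT
    rw [rel_unT, rel_cstT, rel_comp]
    apply or_congr_left
    constructor
    · rintro ⟨z, hz, hv⟩
      rw [rel_comp] at hz
      obtain ⟨z', hz', hz''⟩ := hz
      rw [rel_midT] at hz''
      obtain ⟨rfl, n, rfl⟩ := hz''
      rw [rel_swap, rel_morT] at hz'
      rw [rel_morT] at hv
      refine ⟨n, ?_, ?_⟩
      · rw [hz', hfl]
      · rw [hv, List.flatMap_cons, List.flatMap_append, flatMap_replicate _ 1 0 Q0 rfl]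
        simp
    · rintro ⟨n, rfl, rfl⟩
      refine ⟨0 :: (List.replicate n 1 ++ [2]), ?_, ?_⟩
      · rw [rel_comp]
        refine ⟨0 :: (List.replicate n 1 ++ [2]), ?_, ?_⟩
        · rw [rel_swap, rel_morT, hfl]
        · rw [rel_midT]
          exact ⟨rfl, n, rfl⟩
      · rw [rel_morT, List.flatMap_cons, List.flatMap_append, flatMap_replicate _ 1 0 Q0 rfl]
        simp
  ext v
  constructor
  · rintro ⟨x, hx, hr⟩
    rcases (hrel x v).1 hr with ⟨n, rfl, rfl⟩ | ⟨h1, _⟩
    · change (List.replicate (s0 + Q0 * n) (0 : Fin 1)).length ∈ SS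
      rw [List.length_replicate]
      exact (h n).1 ((hlang _).1 hx)
    · exact h1
  · intro hv
    have hv' : v.length ∈ SS := hv
    by_cases hle : v.length ≤ s0
    · refine ⟨wd (update e j (t0 + P0 * 0)), (hlang _).2 ((h 0).2 (by simpa using hs0)), ?_⟩
      exact (hrel _ _).2 (Or.inr ⟨hv', hle⟩)
    · obtain ⟨n, hn⟩ := hall _ hv' (by omega)
      refine ⟨wd (update e j (t0 + P0 * n)), (hlang _).2 ((h n).2 (hn ▸ hv')), ?_⟩
      refine (hrel _ _).2 (Or.inl ⟨n, rfl, ?_⟩)
      rw [← hn]
      exact List.eq_replicate_iff.2 ⟨rfl, fun b _ => Subsingleton.elim _ _⟩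

/-! ### The generator -/

theorem SL_not_regular : ¬ SL.IsRegular := by
  intro h
  have hfin := h.finite_range_leftQuotient
  have hni : ¬ Function.Injective fun n : ℕ => SL.leftQuotient (List.replicate n 0) := by
    intro hinj
    apply Set.infinite_range_of_injective hinj
    apply hfin.subset
    rintro _ ⟨n, rfl⟩
    exact ⟨_, rfl⟩
  have key : ∀ a b : ℕ, a < b → SL.leftQuotient (List.replicate a 0) =
      SL.leftQuotient (List.replicate b 0) → False := by
    intro a b hab he
    have hper : ∀ x, a + x ∈ SS → b + x ∈ SS := by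
      intro x hx
      have h1 : List.replicate x (0 : Fin 1) ∈ SL.leftQuotient (List.replicate a 0) := by
        change (List.replicate a (0 : Fin 1) ++ List.replicate x 0).length ∈ SS
        simpa using hx
      rw [he] at h1
      change (List.replicate b (0 : Fin 1) ++ List.replicate x 0).length ∈ SS at h1
      simpa using h1
    obtain ⟨s, hs, hle⟩ := SS_inf (a + (b - a + 1).factorial ^ 2)
    have h2 := hper (s - a) (by rwa [show a + (s - a) = s by omega])
    have h3 := SS_cauchy (Nat.succ_pos (b - a)) hs h2 (by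
      change (b - a + 1).factorial ^ 2 ≤ s; omega) (by
      change (b - a + 1).factorial ^ 2 ≤ b + (s - a); omega)
    have h4 := (Nat.modEq_iff_dvd' (by omega)).1 h3
    rw [show b + (s - a) - s = b - a by omega] at h4
    exact Nat.not_dvd_of_pos_of_lt (by omega) (Nat.lt_succ_self _) h4
  apply hni
  intro a b hab
  by_contra hne
  rcases lt_or_gt_of_ne hne with h1 | h1
  · exact key a b h1 hab
  · exact key b a h1 hab.symm

lemma flatten_replicate_singleton {α : Type} (n : ℕ) (a : α) :
    (List.replicate n [a]).flatten = List.replicate n a := by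
  induction n with
  | zero => rfl
  | succ n ih => rw [List.replicate_succ, List.flatten_cons, ih]; rfl

theorem SL_bounded : BoundedDeg 1 SL := by
  refine ⟨fun _ => [0], fun u _ => ⟨fun _ => u.length, ?_⟩⟩
  simp only [List.ofFn_succ, List.ofFn_zero, List.flatten_cons, List.flatten_nil,
    List.append_nil]
  rw [flatten_replicate_singleton]
  exact List.eq_replicate_iff.2 ⟨rfl, fun b _ => Subsingleton.elim _ _⟩

lemma isCone_gen {n : ℕ} (L : Language (Fin n)) : IsCone (gen L) := by
  intro n' m T K hK C hC hL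
  exact hC _ _ T K (hK C hC hL)

lemma gen_le {n m : ℕ} {L : Language (Fin n)} {K : Language (Fin m)} (h : K ∈ gen L m) :
    ∀ (r : ℕ) (K' : Language (Fin r)), K' ∈ gen K r → K' ∈ gen L r := by
  intro r K' hK' C hC hL
  exact hK' C hC (h C hC hL)

/-- a word of `w₁^* ⋯ w_k^*` is the image of a sorted word -/
lemma flatMap_wd {α : Type} {k : ℕ} (w : Fin k → List α) (e : Fin k → ℕ) :
    (wd e).flatMap w = (List.ofFn fun i => (List.replicate (e i) (w i)).flatten).flatten := by
  unfold wd wl
  rw [List.ofFn_eq_map, List.flatMap_assoc, List.flatMap_def]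
  congr 1
  apply List.map_congr_left
  intro a _
  induction (e a) with
  | zero => rfl
  | succ n ih => rw [List.replicate_succ, List.flatMap_cons, ih, List.replicate_succ,
      List.flatten_cons]

theorem minimal_pos {k : ℕ} (hk : 0 < k) : MinimalWrt k (gen SL) := by
  classical
  intro n L hL hbd
  obtain ⟨w, hw⟩ := hbd
  obtain ⟨T, rfl⟩ := (mem_gen_iff SL L).1 hL
  -- the exponents
  set T' : Transducer (Fin 1) (Fin k) := (T.comp (morT w).swap).comp (srtT k) with hT'
  have hmemT' : ∀ v, v ∈ T'.image SL ↔ v.Pairwise (· ≤ ·) ∧ v.flatMap w ∈ T.image SL := by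
    intro v
    rw [hT', ← image_comp, ← image_comp]
    constructor
    · rintro ⟨v', ⟨u, hu, h1⟩, h2⟩
      rw [rel_srtT hk] at h2
      obtain ⟨rfl, h2⟩ := h2
      rw [rel_swap, rel_morT] at h1
      rw [h1] at hu
      exact ⟨h2, hu⟩
    · rintro ⟨h1, h2⟩
      refine ⟨v, ⟨_, h2, ?_⟩, (rel_srtT hk v v).2 ⟨rfl, h1⟩⟩
      rw [rel_swap, rel_morT]
  obtain ⟨ι, hι, P, hP, hY⟩ := structure_YY hk T'
  have hlang : T'.image SL = lang (YY P) := by
    ext v
    constructor
    · intro hv
      have h1 := ((hmemT' v).1 hv).1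
      refine ⟨_, ?_, eq_wd h1⟩
      rw [← hY, ← eq_wd h1]
      exact hv
    · rintro ⟨e, he, rfl⟩
      exact (hY e).2 he
  obtain ⟨D⟩ := exists_dat P hP
  by_cases hlines : ∀ e j, IsSemilinearSet {t | update e j t ∈ YY P}
  · left
    have hreg := regular_of_rec (rec_YY D hlines)
    have himg := image_regular (morT w) hreg
    suffices heq : T.image SL = (morT w).image (lang (YY P)) by rw [heq]; exact himg
    ext u
    constructor
    · intro hu
      obtain ⟨e, he⟩ := hw u hu
      rw [← flatMap_wd] at he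
      refine ⟨wd e, ?_, (rel_morT _ _ _).2 he⟩
      rw [← hlang, hmemT', ← he]
      exact ⟨pairwise_wd e, hu⟩
    · rintro ⟨v, hv, hr⟩
      rw [rel_morT] at hr
      rw [← hlang, hmemT', ← hr] at hv
      exact hv.2
  · right
    push Not at hlines
    obtain ⟨e, j, hline⟩ := hlines
    obtain ⟨t0, P0, s0, Q0, h1, h2, h3⟩ := unary_step D hline
    obtain ⟨u, w', huw⟩ := wd_update e j
    have h4 := exT_image huw h1 h2 h3
    -- `SL` is in the cone of `L`
    have h5 : lang (YY P) = ((morT w).swap.comp (srtT k)).image (T.image SL) := by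
      rw [← hlang, hT', ← image_comp, ← image_comp, ← image_comp]
    have h6 : SL ∈ gen (T.image SL) 1 := by
      refine (mem_gen_iff _ _).2 ⟨((morT w).swap.comp (srtT k)).comp (exT u w' j t0 P0 s0 Q0), ?_⟩
      rw [← image_comp, ← h5, h4]
    funext m
    apply Set.Subset.antisymm
    · exact gen_le hL m
    · exact gen_le h6 m

theorem minimal_all (k : ℕ) : MinimalWrt k (gen SL) := by
  rcases Nat.eq_zero_or_pos k with rfl | hk
  · intro n L hL hbd
    apply minimal_pos one_pos n L hL
    obtain ⟨w, hw⟩ := hbd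
    refine ⟨fun _ => [], fun u hu => ⟨fun _ => 0, ?_⟩⟩
    obtain ⟨e, he⟩ := hw u hu
    rw [he]
    simp
  · exact minimal_pos hk

end Pool.Agent.K3h33.MC
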