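import Mathlib

/-!
The linear subsets of `ℕ × ℕ`: horizontal, flexible and rigid ones.
-/

namespace Pool.Agent.K3h33.MC

open Finset Pointwise

/-- closed under a positive horizontal translation -/
def Horiz (L : Set (ℕ × ℕ)) : Prop := ∃ a, 0 < a ∧ ∀ s t, (s, t) ∈ L → (s + a, t) ∈ L

/-- the first coordinate is bounded linearly in the second one -/
def Bdd (L : Set (ℕ × ℕ)) : Prop := ∃ C, ∀ s t, (s, t) ∈ L → s ≤ C * (t + 1)

/-- the horizontal sections contain long arithmetic progressions through each of their points -/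
def Flex (L : Set (ℕ × ℕ)) : Prop := ∃ δ0, 0 < δ0 ∧ ∀ δ, δ0 ∣ δ → 0 < δ → ∃ K, 0 < K ∧
  ∀ s t n, (s, t) ∈ L → K * (n + 1) ≤ t →
    (∀ i ≤ n, (s + i * δ, t) ∈ L) ∨ (∀ i ≤ n, i * δ ≤ s ∧ (s - i * δ, t) ∈ L)

/-- the first coordinate is an affine function of the second one -/
def Rigid (L : Set (ℕ × ℕ)) : Prop := ∃ a b : ℕ, ∃ c : ℤ, 0 < b ∧
  ∀ s t, (s, t) ∈ L → (b : ℤ) * s = a * t + c

lemma exists_mult {F : Finset (ℕ × ℕ)} {x : ℕ × ℕ}
    (hx : x ∈ AddSubmonoid.closure (F : Set (ℕ × ℕ))) {N : ℕ} (h : N * ∑ v ∈ F, v.2 < x.2) :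
    ∃ v ∈ F, 0 < v.2 ∧ ∃ r ∈ AddSubmonoid.closure (F : Set (ℕ × ℕ)), x = N • v + r := by
  classical
  rw [AddSubmonoid.mem_closure_finset] at hx
  obtain ⟨f, hf, rfl⟩ := hx
  obtain ⟨v, hv, hlt⟩ : ∃ v ∈ F, N * v.2 < f v * v.2 := by
    by_contra hcon
    push Not at hcon
    have : (∑ a ∈ F, f a • a).2 ≤ N * ∑ v ∈ F, v.2 := by
      rw [Prod.snd_sum, Finset.mul_sum]
      exact Finset.sum_le_sum fun v hv => by simpa using hcon v hv
    omega
  have hv2 : 0 < v.2 := by
    by_contra h0
    have : v.2 = 0 := by omega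
    rw [this] at hlt
    omega
  have hN : N ≤ f v := (lt_of_mul_lt_mul_right hlt (Nat.zero_le _)).le
  refine ⟨v, hv, hv2, ∑ a ∈ F.erase v, f a • a + (f v - N) • v, ?_, ?_⟩
  · refine add_mem (sum_mem fun a ha => ?_) ?_
    · exact nsmul_mem (AddSubmonoid.subset_closure (Finset.mem_of_mem_erase ha)) _
    · exact nsmul_mem (AddSubmonoid.subset_closure hv) _
  · rw [← Finset.add_sum_erase F (fun a => f a • a) hv]
    have : f v • v = N • v + (f v - N) • v := by
      rw [← add_nsmul]; congr 1; omega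
    rw [this]
    abel

lemma mem_vadd_closure {F : Finset (ℕ × ℕ)} {v0 y : ℕ × ℕ} :
    y ∈ v0 +ᵥ (AddSubmonoid.closure (F : Set (ℕ × ℕ)) : Set (ℕ × ℕ)) ↔
      ∃ x ∈ AddSubmonoid.closure (F : Set (ℕ × ℕ)), y = v0 + x := by
  rw [Set.mem_vadd_set]
  constructor
  · rintro ⟨x, hx, rfl⟩; exact ⟨x, hx, rfl⟩
  · rintro ⟨x, hx, rfl⟩; exact ⟨x, hx, rfl⟩

theorem trich {L : Set (ℕ × ℕ)} (h : IsLinearSet L) :
    Horiz L ∨ (Bdd L ∧ Flex L) ∨ (Bdd L ∧ Rigid L) := by
  classical
  rw [isLinearSet_iff] at h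
  obtain ⟨v0, F, rfl⟩ := h
  by_cases hH : ∃ v ∈ F, v.2 = 0 ∧ 0 < v.1
  · left
    obtain ⟨v, hv, h1, h2⟩ := hH
    refine ⟨v.1, h2, fun s t hst => ?_⟩
    rw [mem_vadd_closure] at hst ⊢
    obtain ⟨x, hx, he⟩ := hst
    refine ⟨x + v, add_mem hx (AddSubmonoid.subset_closure hv), ?_⟩
    rw [← add_assoc, ← he]
    ext
    · simp
    · simp [h1]
  · right
    have hH' : ∀ v ∈ F, v.2 = 0 → v.1 = 0 := by
      intro v hv h0
      by_contra hne
      exact hH ⟨v, hv, h0, by omega⟩
    have hbdd : Bdd (v0 +ᵥ (AddSubmonoid.closure (F : Set (ℕ × ℕ)) : Set (ℕ × ℕ))) := by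
      have key : ∀ x ∈ AddSubmonoid.closure (F : Set (ℕ × ℕ)), x.1 ≤ (∑ v ∈ F, v.1) * x.2 := by
        intro x hx
        induction hx using AddSubmonoid.closure_induction with
        | mem x hx =>
          by_cases h0 : x.2 = 0
          · rw [hH' x hx h0]; exact Nat.zero_le _
          · have h1 : x.1 ≤ ∑ v ∈ F, v.1 :=
              Finset.single_le_sum (f := fun v : ℕ × ℕ => v.1) (fun _ _ => Nat.zero_le _) hx
            exact h1.trans (Nat.le_mul_of_pos_right _ (by omega))
        | zero => simp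
        | add x y _ _ hx hy => rw [Prod.fst_add, Prod.snd_add, mul_add]; omega
      refine ⟨v0.1 + ∑ v ∈ F, v.1, fun s t hst => ?_⟩
      rw [mem_vadd_closure] at hst
      obtain ⟨x, hx, he⟩ := hst
      have h1 : s = v0.1 + x.1 := congrArg Prod.fst he
      have h2 : t = v0.2 + x.2 := congrArg Prod.snd he
      have h3 := key x hx
      have h4 : (∑ v ∈ F, v.1) * x.2 ≤ (∑ v ∈ F, v.1) * (t + 1) :=
        Nat.mul_le_mul_left _ (by omega)
      have h5 : v0.1 ≤ v0.1 * (t + 1) := Nat.le_mul_of_pos_right _ (by omega)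
      rw [add_mul]
      omega
    by_cases hF : ∃ v ∈ F, ∃ w ∈ F, v.1 * w.2 ≠ w.1 * v.2
    · left
      refine ⟨hbdd, ?_⟩
      obtain ⟨v', hv', w', hw', hne⟩ := hF
      -- the determinants
      let det : ℕ × ℕ → ℕ × ℕ → ℕ := fun v w => (v.1 * w.2 - w.1 * v.2) + (w.1 * v.2 - v.1 * w.2)
      let δ0 := ∏ v ∈ F, ∏ w ∈ F, if det v w = 0 then 1 else det v w
      have hδ0 : 0 < δ0 := by
        apply Finset.prod_pos; intro v _
        apply Finset.prod_pos; intro w _
        split_ifs with h0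
        · exact one_pos
        · omega
      have hdvd : ∀ v ∈ F, ∀ w ∈ F, det v w ≠ 0 → det v w ∣ δ0 := by
        intro v hv w hw h0
        have h1 : (∏ w ∈ F, if det v w = 0 then 1 else det v w) ∣ δ0 :=
          Finset.dvd_prod_of_mem _ hv
        have h2 : (if det v w = 0 then 1 else det v w) ∣
            ∏ w ∈ F, if det v w = 0 then 1 else det v w :=
          Finset.dvd_prod_of_mem (fun w => if det v w = 0 then 1 else det v w) hw
        rw [if_neg h0] at h2
        exact h2.trans h1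
      refine ⟨δ0, hδ0, fun δ hδ hδpos => ?_⟩
      set B := ∑ v ∈ F, v.2 with hB
      refine ⟨v0.2 + δ * B * B + 1, by omega, fun s t n hst hle => ?_⟩
      rw [mem_vadd_closure] at hst
      obtain ⟨x, hx, he⟩ := hst
      have h1 : s = v0.1 + x.1 := congrArg Prod.fst he
      have h2 : t = v0.2 + x.2 := congrArg Prod.snd he
      have h3 : (n * δ * B) * B < x.2 := by
        have : (v0.2 + δ * B * B + 1) * (n + 1) =
          v0.2 * n + v0.2 + n * δ * B * B + δ * B * B + n + 1 := by ring
        have : 0 ≤ v0.2 * n := Nat.zero_le _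
        omega
      obtain ⟨v, hv, hv2, r, hr, hxr⟩ := exists_mult hx h3
      -- a vector that is not parallel to `v`
      obtain ⟨w, hw, hvw⟩ : ∃ w ∈ F, v.1 * w.2 ≠ w.1 * v.2 := by
        by_contra hcon
        push Not at hcon
        have e1 := hcon v' hv'
        have e2 := hcon w' hw'
        apply hne
        have : v'.1 * w'.2 * v.2 = w'.1 * v'.2 * v.2 := by
          calc v'.1 * w'.2 * v.2 = (v'.1 * v.2) * w'.2 := by ring
            _ = (v.1 * v'.2) * w'.2 := by rw [e1]
            _ = (v.1 * w'.2) * v'.2 := by ring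
            _ = w'.1 * v'.2 * v.2 := by rw [e2]; ring
        exact Nat.eq_of_mul_eq_mul_right hv2 this
      have hdet : det v w ≠ 0 := by simp only [det]; omega
      obtain ⟨c, hc⟩ := (hdvd v hv w hw hdet).trans hδ
      have hcpos : 0 < c := by
        rcases Nat.eq_zero_or_pos c with rfl | h
        · rw [mul_zero] at hc; omega
        · exact h
      have hcδ : c ≤ δ := by
        rw [hc]; exact Nat.le_mul_of_pos_left _ (by omega)
      have hwB : w.2 ≤ B := Finset.single_le_sum (f := fun v : ℕ × ℕ => v.2)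
        (fun _ _ => Nat.zero_le _) hw
      have hcnt : ∀ i ≤ n, i * c * w.2 ≤ n * δ * B := fun i hi =>
        Nat.mul_le_mul (Nat.mul_le_mul hi hcδ) hwB
      -- the new elements
      have hnew : ∀ i ≤ n, v0 + ((n * δ * B - i * c * w.2) • v + r + (i * c * v.2) • w) ∈
          v0 +ᵥ (AddSubmonoid.closure (F : Set (ℕ × ℕ)) : Set (ℕ × ℕ)) := by
        intro i _
        rw [mem_vadd_closure]
        refine ⟨_, ?_, rfl⟩
        exact add_mem (add_mem (nsmul_mem (AddSubmonoid.subset_closure hv) _) hr)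
          (nsmul_mem (AddSubmonoid.subset_closure hw) _)
      have hx1 : x.1 = n * δ * B * v.1 + r.1 := by rw [hxr]; simp
      have hx2 : x.2 = n * δ * B * v.2 + r.2 := by rw [hxr]; simp
      have hsnd : ∀ i ≤ n, (n * δ * B - i * c * w.2) * v.2 + r.2 + i * c * v.2 * w.2 = x.2 := by
        intro i hi
        rw [hx2, Nat.sub_mul]
        have := Nat.mul_le_mul_right v.2 (hcnt i hi)
        have e : i * c * w.2 * v.2 = i * c * v.2 * w.2 := by ring
        omega
      rcases lt_or_gt_of_ne hvw with hlt | hgt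
      · left
        intro i hi
        have hd : det v w = w.1 * v.2 - v.1 * w.2 := by simp only [det]; omega
        have := hnew i hi
        convert! this using 1
        have e1 : i * δ = i * c * (w.1 * v.2) - i * c * (v.1 * w.2) := by
          rw [hc, hd, ← Nat.mul_sub]; ring
        have e2 : i * c * (v.1 * w.2) ≤ i * c * (w.1 * v.2) := Nat.mul_le_mul_left _ hlt.le
        have e3 := Nat.mul_le_mul_right v.1 (hcnt i hi)
        ext
        · simp only [Prod.fst_add, Prod.smul_fst, smul_eq_mul]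
          rw [h1, hx1, Nat.sub_mul]
          have e4 : i * c * w.2 * v.1 = i * c * (v.1 * w.2) := by ring
          have e5 : i * c * v.2 * w.1 = i * c * (w.1 * v.2) := by ring
          omega
        · simp only [Prod.snd_add, Prod.smul_snd, smul_eq_mul]
          rw [h2, ← hsnd i hi]
      · right
        intro i hi
        have hd : det v w = v.1 * w.2 - w.1 * v.2 := by simp only [det]; omega
        have e1 : i * δ = i * c * (v.1 * w.2) - i * c * (w.1 * v.2) := by
          rw [hc, hd, ← Nat.mul_sub]; ring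
        have e2 : i * c * (w.1 * v.2) ≤ i * c * (v.1 * w.2) := Nat.mul_le_mul_left _ hgt.le
        have e3 := Nat.mul_le_mul_right v.1 (hcnt i hi)
        have e4 : i * c * w.2 * v.1 = i * c * (v.1 * w.2) := by ring
        have e5 : i * c * v.2 * w.1 = i * c * (w.1 * v.2) := by ring
        refine ⟨by omega, ?_⟩
        have := hnew i hi
        convert! this using 1
        ext
        · simp only [Prod.fst_add, Prod.smul_fst, smul_eq_mul]
          rw [h1, hx1, Nat.sub_mul]
          omega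
        · simp only [Prod.snd_add, Prod.smul_snd, smul_eq_mul]
          rw [h2, ← hsnd i hi]
    · right
      refine ⟨hbdd, ?_⟩
      push Not at hF
      obtain ⟨a, b, hb, hab⟩ : ∃ a b : ℕ, 0 < b ∧ ∀ w ∈ F, a * w.2 = w.1 * b := by
        by_cases hex : ∃ v ∈ F, 0 < v.2
        · obtain ⟨v, hv, hv2⟩ := hex
          exact ⟨v.1, v.2, hv2, fun w hw => hF v hv w hw⟩
        · refine ⟨0, 1, one_pos, fun w hw => ?_⟩
          have : w.2 = 0 := by
            by_contra h0
            exact hex ⟨w, hw, by omega⟩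
          rw [hH' w hw this]
          simp
      have key : ∀ x ∈ AddSubmonoid.closure (F : Set (ℕ × ℕ)), a * x.2 = x.1 * b := by
        intro x hx
        induction hx using AddSubmonoid.closure_induction with
        | mem x hx => exact hab x hx
        | zero => simp
        | add x y _ _ hx hy => rw [Prod.fst_add, Prod.snd_add, mul_add, add_mul, hx, hy]
      refine ⟨a, b, (b : ℤ) * v0.1 - a * v0.2, hb, fun s t hst => ?_⟩
      rw [mem_vadd_closure] at hst
      obtain ⟨x, hx, he⟩ := hst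
      have h1 : s = v0.1 + x.1 := congrArg Prod.fst he
      have h2 : t = v0.2 + x.2 := congrArg Prod.snd he
      have h3 : (a : ℤ) * x.2 = x.1 * b := by exact_mod_cast key x hx
      rw [h1, h2]
      push_cast
      linear_combination -h3

end Pool.Agent.K3h33.MC
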