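import Pool.Agent.K3h33.MC.Dat

/-!
If all the lines of a set of exponents are ultimately periodic, then the set is recognizable.
-/

namespace Pool.Agent.K3h33.MC

open Function

/-- recognizable sets of exponents -/
def Rec {k : ℕ} (Y : Set (Fin k → ℕ)) : Prop :=
  ∃ m q, 0 < q ∧ ∀ e e', (∀ i, Sim m q (e i) (e' i)) → e ∈ Y → e' ∈ Y

lemma Rec.union {k : ℕ} {Y Y' : Set (Fin k → ℕ)} (h : Rec Y) (h' : Rec Y') : Rec (Y ∪ Y') := by
  obtain ⟨m, q, hq, h⟩ := h
  obtain ⟨m', q', hq', h'⟩ := h'
  refine ⟨max m m', q * q', Nat.mul_pos hq hq', fun e e' hs he => ?_⟩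
  rcases he with he | he
  · exact Or.inl (h e e' (fun i => (hs i).mono (le_max_left _ _) (Dvd.intro _ rfl)) he)
  · exact Or.inr (h' e e' (fun i => (hs i).mono (le_max_right _ _) (Dvd.intro_left _ rfl)) he)

lemma Rec.inter {k : ℕ} {Y Y' : Set (Fin k → ℕ)} (h : Rec Y) (h' : Rec Y') : Rec (Y ∩ Y') := by
  obtain ⟨m, q, hq, h⟩ := h
  obtain ⟨m', q', hq', h'⟩ := h'
  refine ⟨max m m', q * q', Nat.mul_pos hq hq', fun e e' hs he => ?_⟩
  exact ⟨h e e' (fun i => (hs i).mono (le_max_left _ _) (Dvd.intro _ rfl)) he.1,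
    h' e e' (fun i => (hs i).mono (le_max_right _ _) (Dvd.intro_left _ rfl)) he.2⟩

lemma Rec.empty {k : ℕ} : Rec (∅ : Set (Fin k → ℕ)) :=
  ⟨0, 1, one_pos, fun _ _ _ h => absurd h (Set.notMem_empty _)⟩

lemma Rec.biUnion {k : ℕ} {κ : Type} {S : Set κ} (hS : S.Finite) {Y : κ → Set (Fin k → ℕ)}
    (h : ∀ a ∈ S, Rec (Y a)) : Rec (⋃ a ∈ S, Y a) := by
  induction S, hS using Set.Finite.induction_on with
  | empty => simpa using Rec.empty
  | @insert a S _ _ ih =>
    rw [Set.biUnion_insert]
    exact (h a (Set.mem_insert _ _)).union (ih fun b hb => h b (Set.mem_insert_of_mem _ hb))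

lemma Rec.update {k : ℕ} {Y : Set (Fin k → ℕ)} (h : Rec Y) (j : Fin k) (v : ℕ) :
    Rec {e | update e j v ∈ Y} := by
  classical
  obtain ⟨m, q, hq, h⟩ := h
  refine ⟨m, q, hq, fun e e' hs he => h _ _ (fun i => ?_) he⟩
  by_cases hi : i = j
  · subst hi
    rw [update_self, update_self]
    exact Or.inl rfl
  · rw [update_of_ne hi, update_of_ne hi]
    exact hs i

/-- a box: the coordinates outside `J` are fixed, the others are large and in a residue class -/
def Box {k : ℕ} (q : ℕ) (J : Finset (Fin k)) (c : Fin k → ℕ) (M : ℕ) : Set (Fin k → ℕ) :=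
  {e | (∀ i ∈ J, M ≤ e i ∧ e i ≡ c i [MOD q]) ∧ ∀ i, i ∉ J → e i = c i}

lemma rec_Box {k : ℕ} {q : ℕ} (hq : 0 < q) (J : Finset (Fin k)) (c : Fin k → ℕ) (M : ℕ) :
    Rec (Box q J c M) := by
  refine ⟨M + ∑ i, c i + 1, q, hq, fun e e' hs he => ⟨fun i hi => ?_, fun i hi => ?_⟩⟩
  · obtain ⟨h1, h2⟩ := he.1 i hi
    rcases hs i with h | ⟨_, h4, h5⟩
    · rw [← h]; exact ⟨h1, h2⟩
    · exact ⟨by omega, h5.symm.trans h2⟩
  · have h1 := he.2 i hi
    have h2 : c i ≤ ∑ i, c i := Finset.single_le_sum (fun _ _ => Nat.zero_le _) (Finset.mem_univ i)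
    rcases hs i with h | ⟨h3, _, _⟩
    · rw [← h]; exact h1
    · omega

section

variable {ι : Type} {k : ℕ} {P : ι → Fin k → Set (ℕ × ℕ)} (D : Dat P)

/-- some sum of a choice of first coordinates is congruent to the limit of `SS` -/
def live (a : ι) (e : Fin k → ℕ) : Prop :=
  ∃ x : Fin k → ℕ, (∀ i, (x i, e i) ∈ P a i) ∧ ∑ i, x i ≡ rr D.δ [MOD D.δ]

/-- the recognizable part that comes from the small elements and the horizontal factors -/
def Zs : Set (Fin k → ℕ) :=
  {e | (∃ a, ∃ x : Fin k → ℕ, (∀ i, (x i, e i) ∈ P a i) ∧ ∑ i, x i ∈ SS ∧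
    ∑ i, x i < D.δ.factorial ^ 2) ∨ ∃ a, (∃ i, Horiz (P a i)) ∧ live D a e}

lemma live_sim {e e' : Fin k → ℕ} (hs : ∀ i, Sim D.m D.q (e i) (e' i)) {a : ι}
    (h : live D a e) : live D a e' := by
  obtain ⟨x, hx, hsum⟩ := h
  choose y hy1 hy2 using fun i => D.res a i (x i) (e i) (e' i) (hs i) (hx i)
  refine ⟨y, hy2, Nat.ModEq.trans ?_ hsum⟩
  have : ∀ s : Finset (Fin k), ∑ i ∈ s, y i ≡ ∑ i ∈ s, x i [MOD D.δ] := by
    classical
    intro s
    induction s using Finset.induction_on with
    | empty => simp [Nat.ModEq]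
    | insert i s hi ih =>
      rw [Finset.sum_insert hi, Finset.sum_insert hi]
      exact (hy1 i).add ih
  exact this _

lemma Zs_sim {e e' : Fin k → ℕ} (hs : ∀ i, Sim D.m D.q (e i) (e' i))
    (h : e ∈ Zs D) : e' ∈ Zs D := by
  rcases h with ⟨a, x, hx, h1, h2⟩ | ⟨a, h1, h2⟩
  · left
    refine ⟨a, x, fun i => D.small a i (x i) (e i) (e' i) ?_ (hs i) (hx i), h1, h2⟩
    exact lt_of_le_of_lt (Finset.single_le_sum (fun _ _ => Nat.zero_le _) (Finset.mem_univ i)) h2
  · exact Or.inr ⟨a, h1, live_sim D hs h2⟩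

lemma Zs_sub : Zs D ⊆ YY P := by
  classical
  rintro e (⟨a, x, hx, h1, _⟩ | ⟨a, ⟨i, hi⟩, x, hx, hsum⟩)
  · exact ⟨a, x, hx, h1⟩
  · obtain ⟨n, _, hn⟩ := SS_inf_class D.hδ hsum 0
    refine ⟨a, update x i (x i + n * D.δ), fun i' => ?_, ?_⟩
    · by_cases h : i' = i
      · subst h
        rw [update_self]
        exact D.horiz a i' hi n _ _ (hx i')
      · rw [update_of_ne h]
        exact hx i'
    · have := sum_update x i (x i + n * D.δ)
      rw [show ∑ i', update x i (x i + n * D.δ) i' = ∑ i, x i + n * D.δ by omega]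
      exact hn

lemma Y_cases {e : Fin k → ℕ} (h : e ∈ YY P) (hZ : e ∉ Zs D) :
    ∃ a, ∃ x : Fin k → ℕ, (∀ i, (x i, e i) ∈ P a i) ∧ ∑ i, x i ∈ SS ∧
      D.δ.factorial ^ 2 ≤ ∑ i, x i ∧ live D a e ∧ ∀ i, ¬ Horiz (P a i) := by
  obtain ⟨a, x, hx, hs⟩ := h
  have h1 : D.δ.factorial ^ 2 ≤ ∑ i, x i := by
    by_contra hcon
    exact hZ (Or.inl ⟨a, x, hx, hs, not_le.1 hcon⟩)
  have h2 : live D a e := ⟨x, hx, SS_res D.hδ hs h1⟩
  exact ⟨a, x, hx, hs, h1, h2, fun i hi => hZ (Or.inr ⟨a, ⟨i, hi⟩, h2⟩)⟩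

/-- a reference element of a box -/
def e0 (J : Finset (Fin k)) (c : Fin k → ℕ) : Fin k → ℕ :=
  fun i => if i ∈ J then c i + D.q * D.m else c i

lemma sim_e0 {J : Finset (Fin k)} {c : Fin k → ℕ} {M : ℕ} (hM : D.m ≤ M) {e : Fin k → ℕ}
    (he : e ∈ Box D.q J c M) : ∀ i, Sim D.m D.q (e i) (e0 D J c i) := by
  intro i
  unfold e0
  by_cases hi : i ∈ J
  · rw [if_pos hi]
    obtain ⟨h1, h2⟩ := he.1 i hi
    right
    refine ⟨by omega, ?_, h2.trans ?_⟩
    · have : D.m ≤ D.q * D.m := Nat.le_mul_of_pos_left _ D.hq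
      omega
    · simp [Nat.ModEq]
  · rw [if_neg hi]
    exact Or.inl (he.2 i hi)

lemma rigid_large {A B s t N : ℕ} {c : ℤ} (hA : 0 < A) (hB : 0 < B)
    (h : (B : ℤ) * s = A * t + c) (ht : B * N + c.natAbs ≤ t) : N ≤ s := by
  by_contra hcon
  have h1 : s + 1 ≤ N := by omega
  have h2 : (B : ℤ) * (s + 1) ≤ B * N := by
    apply mul_le_mul_of_nonneg_left _ (by positivity)
    exact_mod_cast h1
  have h3 : (B : ℤ) * N + |c| ≤ t := by
    have : ((B * N + c.natAbs : ℕ) : ℤ) ≤ t := by exact_mod_cast ht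
    simpa using this
  have h4 : (t : ℤ) ≤ A * t := by
    have h5 : (1 : ℤ) ≤ A := by exact_mod_cast hA
    have h6 : (0 : ℤ) ≤ t := by positivity
    nlinarith
  have h7 := neg_abs_le c
  have h8 : (0 : ℤ) < B := by exact_mod_cast hB
  nlinarith

/-- moving along a rigid factor -/
lemma rigid_move {a : ι} {j : Fin k} {A B : ℕ} {c : ℤ} (hB : 0 < B)
    (hR : ∀ s t, (s, t) ∈ P a j → (B : ℤ) * s = A * t + c) {s t : ℕ} (hst : (s, t) ∈ P a j)
    (ht : D.m ≤ t) (n : ℕ) : (s + n * (A * D.q), t + D.q * B * n) ∈ P a j := by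
  obtain ⟨s', _, h⟩ := D.res a j s t (t + D.q * B * n)
    (Or.inr ⟨ht, by omega, by simp [Nat.ModEq, mul_assoc]⟩) hst
  have h1 := hR _ _ hst
  have h2 := hR _ _ h
  have h3 : s' = s + n * (A * D.q) := by
    have : (B : ℤ) * s' = B * (s + n * (A * D.q) : ℕ) := by
      rw [h2]; push_cast; linear_combination -h1
    have hB' : (B : ℤ) ≠ 0 := by positivity
    exact_mod_cast mul_left_cancel₀ hB' this
  rw [← h3]; exact h

/-- a rigid factor of slope zero -/
lemma rigid_zero {a : ι} {j : Fin k} {B : ℕ} {c : ℤ} (hB : 0 < B)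
    (hR : ∀ s t, (s, t) ∈ P a j → (B : ℤ) * s = c) {s t t' : ℕ} (hst : (s, t) ∈ P a j)
    (ht : Sim D.m D.q t t') : (s, t') ∈ P a j := by
  obtain ⟨s', _, h⟩ := D.res a j s t t' ht hst
  have h1 := hR _ _ hst
  have h2 := hR _ _ h
  have h3 : s' = s := by
    have hB' : (B : ℤ) ≠ 0 := by positivity
    exact_mod_cast mul_left_cancel₀ hB' (h2.trans h1.symm)
  rw [← h3]; exact h

lemma mem_update {a : ι} {x e : Fin k → ℕ} (hx : ∀ i, (x i, e i) ∈ P a i) {j : Fin k} {s t : ℕ}
    (hst : (s, t) ∈ P a j) : ∀ i, (update x j s i, update e j t i) ∈ P a i := by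
  intro i
  by_cases hi : i = j
  · subst hi; simpa using hst
  · simpa [hi] using hx i

theorem caseA {J : Finset (Fin k)} (hJ : J.Nonempty) {c : Fin k → ℕ} (hZ : e0 D J c ∉ Zs D)
    (hA : ∀ j ∈ J, ∃ a, live D a (e0 D J c) ∧ Flex (P a j)) :
    ∃ M, D.m ≤ M ∧ ∀ e ∈ Box D.q J c M, e ∈ YY P := by
  classical
  obtain ⟨N0, hN0⟩ := SS_dense D.δ (3 * k * D.C * (2 * D.K)) D.hδ
  refine ⟨D.m + ∑ i, c i + D.K * (N0 + 3), by omega, fun e he => ?_⟩
  obtain ⟨j, hj, hmax⟩ := Finset.exists_max_image J e hJ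
  have hcle : ∀ i, c i ≤ ∑ i, c i :=
    fun i => Finset.single_le_sum (fun _ _ => Nat.zero_le _) (Finset.mem_univ i)
  have hej := (he.1 j hj).1
  have hle : ∀ i, e i ≤ e j := by
    intro i
    by_cases hi : i ∈ J
    · exact hmax i hi
    · rw [he.2 i hi]
      have := hcle i
      omega
  have hsim := sim_e0 D (c := c) (J := J) (M := D.m + ∑ i, c i + D.K * (N0 + 3)) (by omega) he
  obtain ⟨a, hlive, hflex⟩ := hA j hj
  have hnh : ∀ i, ¬ Horiz (P a i) := fun i hi => hZ (Or.inr ⟨a, ⟨i, hi⟩, hlive⟩)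
  have hKe : D.K ≤ e j := by
    have : D.K ≤ D.K * (N0 + 3) := Nat.le_mul_of_pos_right _ (by omega)
    omega
  obtain ⟨x, hx, hsum⟩ := live_sim D (fun i => (hsim i).symm) hlive
  -- the number of steps
  obtain ⟨n, hn1, hn2⟩ : ∃ n, D.K * (n + 1) ≤ e j ∧ e j < D.K * (n + 2) := by
    refine ⟨e j / D.K - 1, ?_, ?_⟩
    · have h1 : 1 ≤ e j / D.K := (Nat.one_le_div_iff D.hK).2 hKe
      rw [Nat.sub_add_cancel h1]
      exact Nat.mul_div_le _ _
    · have h1 : 1 ≤ e j / D.K := (Nat.one_le_div_iff D.hK).2 hKe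
      have h2 := Nat.lt_mul_div_succ (e j) D.hK
      rw [show e j / D.K - 1 + 2 = e j / D.K + 1 by omega]
      exact h2
  have hnN : N0 + 1 ≤ n := by
    by_contra hcon
    have : D.K * (n + 2) ≤ D.K * (N0 + 3) := Nat.mul_le_mul_left _ (by omega)
    omega
  have hX : ∑ i, x i ≤ 3 * k * D.C * (2 * D.K) * n := by
    have h1 : ∑ i, x i ≤ ∑ _i : Fin k, D.C * (D.K * (n + 2)) := by
      apply Finset.sum_le_sum
      intro i _
      have h2 := D.bdd a i (hnh i) _ _ (hx i)
      exact h2.trans (Nat.mul_le_mul_left _ (by have := hle i; omega))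
    rw [Finset.sum_const, Finset.card_univ, Fintype.card_fin, smul_eq_mul] at h1
    refine h1.trans ?_
    have h3 : n + 2 ≤ 6 * n := by omega
    calc k * (D.C * (D.K * (n + 2))) ≤ k * (D.C * (D.K * (6 * n))) := by gcongr
      _ = _ := by ring
  rcases D.flex a j hflex (x j) (e j) n (hx j) hn1 with hf | hf
  · obtain ⟨i, hi, hSS⟩ := hN0 n (by omega) _ hsum hX
    refine ⟨a, update x j (x j + i * D.δ), fun i' => ?_, ?_⟩
    · have := mem_update hx (hf i hi) i'
      rwa [update_eq_self] at this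
    · have := sum_update x j (x j + i * D.δ)
      rw [show ∑ i', update x j (x j + i * D.δ) i' = ∑ i, x i + i * D.δ by omega]
      exact hSS
  · have hxj : x j ≤ ∑ i, x i :=
      Finset.single_le_sum (fun _ _ => Nat.zero_le _) (Finset.mem_univ j)
    have h0 := (hf n le_rfl).1
    have hX' : ∑ i, x i - n * D.δ ≡ rr D.δ [MOD D.δ] := by
      refine Nat.ModEq.trans ?_ hsum
      have : ∑ i, x i - n * D.δ ≡ ∑ i, x i - n * D.δ + n * D.δ [MOD D.δ] := by
        simp [Nat.ModEq]
      rwa [Nat.sub_add_cancel (by omega)] at this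
    obtain ⟨i, hi, hSS⟩ := hN0 n (by omega) _ hX' (by omega)
    obtain ⟨h1, h2⟩ := hf (n - i) (Nat.sub_le _ _)
    refine ⟨a, update x j (x j - (n - i) * D.δ), fun i' => ?_, ?_⟩
    · have := mem_update hx h2 i'
      rwa [update_eq_self] at this
    · have h3 := sum_update x j (x j - (n - i) * D.δ)
      have h4 : (n - i) * D.δ = n * D.δ - i * D.δ := Nat.sub_mul _ _ _
      have h5 : i * D.δ ≤ n * D.δ := Nat.mul_le_mul_right _ hi
      rw [show ∑ i', update x j (x j - (n - i) * D.δ) i' = ∑ i, x i - n * D.δ + i * D.δ by omega]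
      exact hSS

/-- the rigid data of the live indices -/
lemma exists_rigid {J : Finset (Fin k)} {c : Fin k → ℕ} (hZ : e0 D J c ∉ Zs D) {j : Fin k}
    (hB : ∀ a, live D a (e0 D J c) → ¬ Flex (P a j)) :
    ∃ (A B : ι → ℕ) (cc : ι → ℤ), (∀ a, 0 < B a) ∧ ∀ a, live D a (e0 D J c) →
      ∀ s t, (s, t) ∈ P a j → (B a : ℤ) * s = A a * t + cc a := by
  have h : ∀ a, ∃ A B : ℕ, ∃ cc : ℤ, 0 < B ∧ (live D a (e0 D J c) →
      ∀ s t, (s, t) ∈ P a j → (B : ℤ) * s = A * t + cc) := by
    intro a
    by_cases hl : live D a (e0 D J c)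
    · have hnh : ∀ i, ¬ Horiz (P a i) := fun i hi => hZ (Or.inr ⟨a, ⟨i, hi⟩, hl⟩)
      obtain ⟨A, B, cc, h1, h2⟩ := D.tri a j (hnh j) (hB a hl)
      exact ⟨A, B, cc, h1, fun _ => h2⟩
    · exact ⟨0, 1, 0, one_pos, fun h => absurd h hl⟩
  choose A B cc h1 h2 using h
  exact ⟨A, B, cc, h1, h2⟩

lemma sum_erase_le {a : ι} (hnh : ∀ i, ¬ Horiz (P a i)) {x e e' : Fin k → ℕ} {j : Fin k}
    (hx : ∀ i, (x i, e' i) ∈ P a i) (he : ∀ i, i ≠ j → e' i = e i) :
    ∑ i ∈ Finset.univ.erase j, x i ≤ ∑ i, D.C * (e i + 1) := by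
  calc ∑ i ∈ Finset.univ.erase j, x i ≤ ∑ i ∈ Finset.univ.erase j, D.C * (e i + 1) := by
        apply Finset.sum_le_sum
        intro i hi
        have := D.bdd a i (hnh i) _ _ (hx i)
        rwa [he i (Finset.ne_of_mem_erase hi)] at this
    _ ≤ ∑ i, D.C * (e i + 1) :=
        Finset.sum_le_sum_of_subset (Finset.erase_subset _ _)

lemma update_mem_Box {q : ℕ} {J : Finset (Fin k)} {c : Fin k → ℕ} {M : ℕ} {e : Fin k → ℕ}
    (he : e ∈ Box q J c M) {j : Fin k} (hj : j ∈ J) {t : ℕ} (ht : M ≤ t)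
    (ht' : t ≡ c j [MOD q]) : update e j t ∈ Box q J c M := by
  refine ⟨fun i hi => ?_, fun i hi => ?_⟩
  · by_cases h : i = j
    · subst h; rw [update_self]; exact ⟨ht, ht'⟩
    · rw [update_of_ne h]; exact he.1 i hi
  · have h : i ≠ j := fun h => hi (h ▸ hj)
    rw [update_of_ne h]; exact he.2 i hi

theorem caseB [Finite ι] {J : Finset (Fin k)} {c : Fin k → ℕ} (hZ : e0 D J c ∉ Zs D)
    {j : Fin k} (hj : j ∈ J) (hB : ∀ a, live D a (e0 D J c) → ¬ Flex (P a j))
    (hlines : ∀ e, IsSemilinearSet {t | update e j t ∈ YY P}) :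
    ∃ M, D.m ≤ M ∧ ∀ e ∈ Box D.q J c M, ∀ t, M ≤ t → t ≡ c j [MOD D.q] → e ∈ YY P →
      update e j t ∈ YY P := by
  classical
  have := Fintype.ofFinite ι
  obtain ⟨A, B, cc, hBpos, hR⟩ := exists_rigid D hZ hB
  set M := D.m + ∑ a, (B a * ((A a * D.q).factorial ^ 2) + (cc a).natAbs) with hM
  have hMa : ∀ a, B a * ((A a * D.q).factorial ^ 2) + (cc a).natAbs ≤ M := by
    intro a
    have := Finset.single_le_sum
      (f := fun a => B a * ((A a * D.q).factorial ^ 2) + (cc a).natAbs)
      (fun _ _ => Nat.zero_le _) (Finset.mem_univ a)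
    omega
  refine ⟨M, by omega, fun e he t ht htc heY => ?_⟩
  have hmM : D.m ≤ M := by omega
  -- membership of the elements of the box
  have hbox : ∀ e' ∈ Box D.q J c M, e' ∈ YY P → ∃ a, ∃ x : Fin k → ℕ,
      (∀ i, (x i, e' i) ∈ P a i) ∧ ∑ i, x i ∈ SS ∧ live D a (e0 D J c) ∧
      ∀ i, ¬ Horiz (P a i) := by
    intro e' he' hY
    have hs := sim_e0 D hmM he'
    have hZ' : e' ∉ Zs D := fun h => hZ (Zs_sim D hs h)
    obtain ⟨a, x, hx, h1, _, h2, h3⟩ := Y_cases D hY hZ'
    exact ⟨a, x, hx, h1, live_sim D hs h2, h3⟩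
  -- transfer along the factors of slope zero
  have hzero : ∀ e' ∈ Box D.q J c M, ∀ a, ∀ x : Fin k → ℕ, (∀ i, (x i, e' i) ∈ P a i) →
      ∑ i, x i ∈ SS → live D a (e0 D J c) → A a = 0 → update e' j t ∈ YY P := by
    intro e' he' a x hx hs hl hA0
    have h1 : (x j, t) ∈ P a j := by
      apply rigid_zero D (hBpos a) (c := cc a) _ (hx j)
      · obtain ⟨h2, h3⟩ := he'.1 j hj
        exact Or.inr ⟨by omega, by omega, h3.trans htc.symm⟩
      · intro s t hst
        have := hR a hl s t hst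
        rw [hA0] at this
        simpa using this
    refine ⟨a, x, fun i => ?_, hs⟩
    have := mem_update hx h1 i
    rwa [update_eq_self] at this
  obtain ⟨a, x, hx, hs, hl, hnh⟩ := hbox e he heY
  by_cases hA0 : A a = 0
  · exact hzero e he a x hx hs hl hA0
  · have hApos : 0 < A a := Nat.pos_of_ne_zero hA0
    by_contra hcon
    have hej := he.1 j hj
    -- the line is infinite
    have hinf : ∀ T, ∃ t', T ≤ t' ∧ t' ≡ c j [MOD D.q] ∧ update e j t' ∈ YY P ∧ M ≤ t' := by
      intro T
      have h1 : (A a * D.q).factorial ^ 2 ≤ x j :=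
        rigid_large hApos (hBpos a) (hR a hl _ _ (hx j)) ((hMa a).trans hej.1)
      have h2 : x j ≤ ∑ i, x i :=
        Finset.single_le_sum (fun _ _ => Nat.zero_le _) (Finset.mem_univ j)
      have hAq : 0 < A a * D.q := Nat.mul_pos hApos D.hq
      have h3 : ∑ i, x i ≡ rr (A a * D.q) [MOD (A a * D.q)] := SS_res hAq hs (h1.trans h2)
      obtain ⟨n, hn, hn'⟩ := SS_inf_class hAq h3 T
      have h4 := rigid_move D (hBpos a) (hR a hl) (hx j) (by omega) n
      have hTn : n ≤ D.q * B a * n := Nat.le_mul_of_pos_left _ (Nat.mul_pos D.hq (hBpos a))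
      refine ⟨e j + D.q * B a * n, by omega, ?_, ?_, by omega⟩
      · refine Nat.ModEq.trans ?_ hej.2
        simp [Nat.ModEq, mul_assoc]
      · refine ⟨a, update x j (x j + n * (A a * D.q)), mem_update hx h4, ?_⟩
        have := sum_update x j (x j + n * (A a * D.q))
        rw [show ∑ i', update x j (x j + n * (A a * D.q)) i' = ∑ i, x i + n * (A a * D.q) by omega]
        exact hn'
    obtain ⟨kU, pU, hpU, hU⟩ := Nat.isSemilinearSet_iff_ultimately_periodic.1 (hlines e)
    obtain ⟨t1, ht1, ht1c, ht1Y, ht1M⟩ := hinf kU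
    set g := pU * D.q with hg
    have hgpos : 0 < g := Nat.mul_pos hpU D.hq
    have hUn : ∀ n, t1 + n * g ∈ {t | update e j t ∈ YY P} := by
      have hstep : ∀ n x, kU ≤ x → x ∈ {t | update e j t ∈ YY P} →
          x + n * pU ∈ {t | update e j t ∈ YY P} := by
        intro n
        induction n with
        | zero => intro x _ h; simpa using h
        | succ n ih =>
          intro x hx h
          have := (hU (x + n * pU) (by omega)).1 (ih x hx h)
          rw [show x + (n + 1) * pU = x + n * pU + pU by ring]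
          exact this
      intro n
      have := hstep (n * D.q) t1 ht1 ht1Y
      rw [show n * D.q * pU = n * g by rw [hg]; ring] at this
      exact this
    have hcl : ∀ n, t1 + n * g ≡ c j [MOD D.q] := by
      intro n
      refine Nat.ModEq.trans ?_ ht1c
      rw [hg, ← mul_assoc]
      simp [Nat.ModEq]
    have hbx : ∀ n, update e j (t1 + n * g) ∈ Box D.q J c M := fun n =>
      update_mem_Box he hj (by omega) (hcl n)
    -- witnesses along the line
    have hwit : ∀ n, ∃ a, ∃ x : Fin k → ℕ, (∀ i, (x i, update e j (t1 + n * g) i) ∈ P a i) ∧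
        ∑ i, x i ∈ SS ∧ live D a (e0 D J c) ∧ (∀ i, ¬ Horiz (P a i)) ∧ 0 < A a := by
      intro n
      obtain ⟨a, x, hx, hs, hl, hnh⟩ := hbox _ (hbx n) (hUn n)
      refine ⟨a, x, hx, hs, hl, hnh, ?_⟩
      by_contra h0
      have := hzero _ (hbx n) a x hx hs hl (by omega)
      rw [update_idem] at this
      exact hcon this
    choose an xn hxn hsn hln hnhn hAn using hwit
    set W := ∑ i, D.C * (e i + 1) with hW
    have hyn : ∀ n, ∑ i ∈ Finset.univ.erase j, xn n i ≤ W := fun n =>
      sum_erase_le D (hnhn n) (hxn n) (fun i hi => update_of_ne hi _ _)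
    -- the pigeonhole principle in a window
    set N := Fintype.card (ι × Fin (W + 1)) with hN
    set G := (∑ a, A a) * g * N + 1 with hG
    set n0 := ∑ a, (B a * (G.factorial ^ 2) + (cc a).natAbs) with hn0
    have hn0a : ∀ a, B a * (G.factorial ^ 2) + (cc a).natAbs ≤ n0 := by
      intro a
      exact Finset.single_le_sum
        (f := fun a => B a * (G.factorial ^ 2) + (cc a).natAbs)
        (fun _ _ => Nat.zero_le _) (Finset.mem_univ a)
    obtain ⟨u, v, huv, hf⟩ : ∃ u v : Fin (N + 1), u ≠ v ∧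
        ((an (n0 + u), (⟨∑ i ∈ Finset.univ.erase j, xn (n0 + u) i,
          Nat.lt_succ_of_le (hyn _)⟩ : Fin (W + 1))) : ι × Fin (W + 1)) =
        (an (n0 + v), ⟨∑ i ∈ Finset.univ.erase j, xn (n0 + v) i,
          Nat.lt_succ_of_le (hyn _)⟩) := by
      apply Fintype.exists_ne_map_eq_of_card_lt
        (fun u : Fin (N + 1) => ((an (n0 + u), (⟨∑ i ∈ Finset.univ.erase j, xn (n0 + u) i,
          Nat.lt_succ_of_le (hyn _)⟩ : Fin (W + 1))) : ι × Fin (W + 1)))
      rw [Fintype.card_fin]
      omega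
    have key : ∀ u v : ℕ, u < v → v ≤ N → an (n0 + u) = an (n0 + v) →
        ∑ i ∈ Finset.univ.erase j, xn (n0 + u) i = ∑ i ∈ Finset.univ.erase j, xn (n0 + v) i →
        False := by
      intro u v huv hvN ha hy
      have hsu : ∑ i, xn (n0 + u) i = xn (n0 + u) j + ∑ i ∈ Finset.univ.erase j, xn (n0 + u) i :=
        (Finset.add_sum_erase _ _ (Finset.mem_univ j)).symm
      have hsv : ∑ i, xn (n0 + v) i = xn (n0 + v) j + ∑ i ∈ Finset.univ.erase j, xn (n0 + v) i :=
        (Finset.add_sum_erase _ _ (Finset.mem_univ j)).symm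
      have hru := hR _ (hln (n0 + u)) _ _ (hxn (n0 + u) j)
      have hrv := hR _ (hln (n0 + v)) _ _ (hxn (n0 + v) j)
      rw [update_self] at hru hrv
      have hlu : G.factorial ^ 2 ≤ xn (n0 + u) j := by
        apply rigid_large (hAn (n0 + u)) (hBpos _) hru
        have h1 := hn0a (an (n0 + u))
        have h2 : n0 + u ≤ (n0 + u) * g := Nat.le_mul_of_pos_right _ hgpos
        omega
      have hlv : G.factorial ^ 2 ≤ xn (n0 + v) j := by
        apply rigid_large (hAn (n0 + v)) (hBpos _) hrv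
        have h1 := hn0a (an (n0 + v))
        have h2 : n0 + v ≤ (n0 + v) * g := Nat.le_mul_of_pos_right _ hgpos
        omega
      rw [← ha] at hrv
      set A' := A (an (n0 + u))
      set B' := B (an (n0 + u))
      have hB' : 0 < B' := hBpos _
      have hA' : 0 < A' := hAn _
      have hdiff : (B' : ℤ) * ((xn (n0 + v) j : ℤ) - xn (n0 + u) j) = A' * g * (v - u) := by
        have : (B' : ℤ) * ((xn (n0 + v) j : ℤ) - xn (n0 + u) j) =
            B' * xn (n0 + v) j - B' * xn (n0 + u) j := by ring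
        rw [this, hrv, hru]
        push_cast
        ring
      have hpos1 : (0 : ℤ) < (A' : ℤ) * g * (v - u) := by
        have : (0 : ℤ) < (v : ℤ) - u := by
          have : (u : ℤ) < v := by exact_mod_cast huv
          linarith
        positivity
      have hlt : xn (n0 + u) j < xn (n0 + v) j := by
        by_contra hge
        have : ((xn (n0 + v) j : ℤ) - xn (n0 + u) j) ≤ 0 := by
          have : (xn (n0 + v) j : ℤ) ≤ xn (n0 + u) j := by exact_mod_cast not_lt.1 hge
          linarith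
        have : (B' : ℤ) * ((xn (n0 + v) j : ℤ) - xn (n0 + u) j) ≤ 0 :=
          mul_nonpos_of_nonneg_of_nonpos (by positivity) this
        linarith
      have hle : xn (n0 + v) j - xn (n0 + u) j < G := by
        have h1 : ((xn (n0 + v) j : ℤ) - xn (n0 + u) j) ≤ A' * g * N := by
          have h2 : ((xn (n0 + v) j : ℤ) - xn (n0 + u) j) ≤
              B' * ((xn (n0 + v) j : ℤ) - xn (n0 + u) j) := by
            have h3 : (1 : ℤ) ≤ B' := by exact_mod_cast hB'
            have h4 : (0 : ℤ) ≤ (xn (n0 + v) j : ℤ) - xn (n0 + u) j := by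
              have : (xn (n0 + u) j : ℤ) < xn (n0 + v) j := by exact_mod_cast hlt
              linarith
            nlinarith
          rw [hdiff] at h2
          refine h2.trans ?_
          apply mul_le_mul_of_nonneg_left _ (by positivity)
          have : (v : ℤ) ≤ N := by exact_mod_cast hvN
          have : (0 : ℤ) ≤ u := by positivity
          linarith
        have h5 : A' ≤ ∑ a, A a :=
          Finset.single_le_sum (f := A) (fun _ _ => Nat.zero_le _) (Finset.mem_univ _)
        have h6 : A' * g * N ≤ (∑ a, A a) * g * N :=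
          Nat.mul_le_mul_right _ (Nat.mul_le_mul_right _ h5)
        have h7 : ((xn (n0 + v) j : ℤ) - xn (n0 + u) j) ≤ ((∑ a, A a) * g * N : ℕ) :=
          h1.trans (by exact_mod_cast h6)
        rw [← Nat.cast_sub hlt.le] at h7
        have h8 : xn (n0 + v) j - xn (n0 + u) j ≤ (∑ a, A a) * g * N := by exact_mod_cast h7
        omega
      have hGpos : 0 < G := by omega
      have hcong := SS_cauchy hGpos (hsn (n0 + u)) (hsn (n0 + v)) (by omega) (by omega)
      have hdvd := (Nat.modEq_iff_dvd' (by omega)).1 hcong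
      have heq : ∑ i, xn (n0 + v) i - ∑ i, xn (n0 + u) i =
          xn (n0 + v) j - xn (n0 + u) j := by omega
      rw [heq] at hdvd
      exact Nat.not_dvd_of_pos_of_lt (by omega) hle hdvd
    rw [Prod.mk.injEq, Fin.mk.injEq] at hf
    rcases lt_or_gt_of_ne (fun h => huv (Fin.ext h) : (u : ℕ) ≠ v) with h | h
    · exact key u v h (by omega) hf.1 hf.2
    · exact key v u h (by omega) hf.1.symm hf.2.symm

include D in
theorem rec_of_lines [Finite ι] (hlines : ∀ e j, IsSemilinearSet {t | update e j t ∈ YY P})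
    (J : Finset (Fin k)) : ∀ c : Fin k → ℕ, Rec (YY P ∩ {e | ∀ i, i ∉ J → e i = c i}) := by
  classical
  induction J using Finset.strongInduction with
  | H J ih =>
    intro c
    by_cases hJ : J.Nonempty
    · -- the boxes
      have hbox : ∀ c, Rec (YY P ∩ Box D.q J c 0) := by
        intro c
        -- a large box
        have hlarge : ∃ M, Rec (YY P ∩ Box D.q J c M) := by
          by_cases hZ : e0 D J c ∈ Zs D
          · refine ⟨D.m, ?_⟩
            have : YY P ∩ Box D.q J c D.m = Box D.q J c D.m := by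
              apply Set.inter_eq_right.2
              intro e he
              apply Zs_sub D
              exact Zs_sim D (fun i => (sim_e0 D le_rfl he i).symm) hZ
            rw [this]
            exact rec_Box D.hq J c _
          · by_cases hA : ∀ j ∈ J, ∃ a, live D a (e0 D J c) ∧ Flex (P a j)
            · obtain ⟨M, _, hM⟩ := caseA D hJ hZ hA
              refine ⟨M, ?_⟩
              have : YY P ∩ Box D.q J c M = Box D.q J c M := Set.inter_eq_right.2 hM
              rw [this]
              exact rec_Box D.hq J c _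
            · push Not at hA
              obtain ⟨j, hj, hB⟩ := hA
              obtain ⟨M, hmM, hM⟩ := caseB D hZ hj hB (fun e => hlines e j)
              refine ⟨M, ?_⟩
              set ts := c j + D.q * M with hts
              have hts1 : M ≤ ts := by
                have : M ≤ D.q * M := Nat.le_mul_of_pos_left _ D.hq
                omega
              have hts2 : ts ≡ c j [MOD D.q] := by simp [hts, Nat.ModEq]
              have heq : YY P ∩ Box D.q J c M = Box D.q J c M ∩
                  {e | update e j ts ∈ YY P ∩ {e | ∀ i, i ∉ J.erase j →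
                    e i = update c j ts i}} := by
                ext e
                constructor
                · rintro ⟨h1, h2⟩
                  refine ⟨h2, hM e h2 ts hts1 hts2 h1, fun i hi => ?_⟩
                  by_cases h : i = j
                  · subst h; simp
                  · rw [update_of_ne h, update_of_ne h]
                    exact h2.2 i fun h' => hi (Finset.mem_erase.2 ⟨h, h'⟩)
                · rintro ⟨h2, h1, _⟩
                  refine ⟨?_, h2⟩
                  have h3 := hM _ (update_mem_Box h2 hj hts1 hts2) (e j) (h2.1 j hj).1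
                    (h2.1 j hj).2 h1
                  rwa [update_idem, update_eq_self] at h3
              rw [heq]
              exact (rec_Box D.hq J c M).inter
                ((ih _ (Finset.erase_ssubset hj) (update c j ts)).update j ts)
        obtain ⟨M, hM⟩ := hlarge
        have heq : YY P ∩ Box D.q J c 0 = (YY P ∩ Box D.q J c M) ∪
            ⋃ x ∈ (J ×ˢ Finset.range M : Finset (Fin k × ℕ)) , ((YY P ∩ {e | ∀ i, i ∉ J.erase x.1 →
              e i = update c x.1 x.2 i}) ∩ Box D.q J c 0) := by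
          ext e
          constructor
          · rintro ⟨h1, h2⟩
            by_cases hall : ∀ j ∈ J, M ≤ e j
            · left
              exact ⟨h1, fun i hi => ⟨hall i hi, (h2.1 i hi).2⟩, h2.2⟩
            · push Not at hall
              obtain ⟨j, hj, hlt⟩ := hall
              right
              simp only [Set.mem_iUnion]
              refine ⟨(j, e j), Finset.mem_product.2 ⟨hj, Finset.mem_range.2 hlt⟩,
                ⟨h1, fun i hi => ?_⟩, h2⟩
              by_cases h : i = j
              · subst h; simp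
              · rw [update_of_ne h]
                exact h2.2 i fun h' => hi (Finset.mem_erase.2 ⟨h, h'⟩)
          · rintro (⟨h1, h2⟩ | h)
            · exact ⟨h1, fun i hi => ⟨Nat.zero_le _, (h2.1 i hi).2⟩, h2.2⟩
            · simp only [Set.mem_iUnion] at h
              obtain ⟨_, _, ⟨h1, _⟩, h2⟩ := h
              exact ⟨h1, h2⟩
        rw [heq]
        apply hM.union
        apply Rec.biUnion (Finset.finite_toSet _)
        intro x hx
        have hx' := Finset.mem_product.1 (Finset.mem_coe.1 hx)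
        exact (ih _ (Finset.erase_ssubset hx'.1) _).inter (rec_Box D.hq J c 0)
      -- the union over the residue classes
      have heq : YY P ∩ {e | ∀ i, i ∉ J → e i = c i} =
          ⋃ r ∈ (Set.univ : Set (Fin k → Fin D.q)),
            (YY P ∩ Box D.q J (fun i => if i ∈ J then (r i : ℕ) else c i) 0) := by
        ext e
        simp only [Set.mem_iUnion]
        constructor
        · rintro ⟨h1, h2⟩
          refine ⟨fun i => ⟨e i % D.q, Nat.mod_lt _ D.hq⟩, trivial, h1, fun i hi => ?_,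
            fun i hi => ?_⟩
          · simp only [if_pos hi]
            exact ⟨Nat.zero_le _, (Nat.mod_modEq _ _).symm⟩
          · simp only [if_neg hi]
            exact h2 i hi
        · rintro ⟨r, _, h1, h2⟩
          refine ⟨h1, fun i hi => ?_⟩
          have := h2.2 i hi
          simp only [if_neg hi] at this
          exact this
      rw [heq]
      exact Rec.biUnion Set.finite_univ fun r _ => hbox _
    · rw [Finset.not_nonempty_iff_eq_empty] at hJ
      subst hJ
      refine ⟨∑ i, c i + 1, 1, one_pos, fun e e' hs he => ?_⟩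
      have h1 : e' = e := by
        funext i
        have h2 : e i = c i := he.2 i (Finset.notMem_empty _)
        have h3 : c i ≤ ∑ i, c i :=
          Finset.single_le_sum (fun _ _ => Nat.zero_le _) (Finset.mem_univ i)
        rcases hs i with h | ⟨h4, _, _⟩
        · exact h.symm
        · omega
      rw [h1]; exact he

include D in
theorem rec_YY [Finite ι] (hlines : ∀ e j, IsSemilinearSet {t | update e j t ∈ YY P}) :
    Rec (YY P) := by
  have := rec_of_lines D hlines Finset.univ (fun _ => 0)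
  have heq : YY P ∩ {e | ∀ i, i ∉ (Finset.univ : Finset (Fin k)) → e i = 0} = YY P := by
    apply Set.inter_eq_left.2
    intro e _ i hi
    exact absurd (Finset.mem_univ i) hi
  rwa [heq] at this

end

end Pool.Agent.K3h33.MC
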