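import Mathlib

/-!
A set of natural numbers that converges to an irrational element of the profinite completion
and that meets all long arithmetic progressions allowed by this.
-/

namespace Pool.Agent.K3h33.MC

open Finset

/-- partial sums of the series of factorials -/
def rr (m : ℕ) : ℕ := ∑ i ∈ range m, i.factorial

lemma rr_succ (m : ℕ) : rr (m + 1) = rr m + m.factorial := sum_range_succ _ _

/-- the numbers that are congruent to `rr m` modulo `m!` as soon as they are at least `(m!)^2` -/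
def SS : Set ℕ := {x | ∀ m : ℕ, m.factorial ^ 2 ≤ x → x ≡ rr m [MOD m.factorial]}

lemma rr_modEq {m m' : ℕ} (h : m ≤ m') : rr m' ≡ rr m [MOD m.factorial] := by
  induction m', h using Nat.le_induction with
  | base => exact Nat.ModEq.refl _
  | succ n hn ih =>
    rw [rr_succ]
    have : n.factorial ≡ 0 [MOD m.factorial] :=
      (Nat.modEq_zero_iff_dvd).2 (Nat.factorial_dvd_factorial hn)
    simpa using ih.add this

lemma SS_res {q : ℕ} (hq : 0 < q) {s : ℕ} (hs : s ∈ SS) (h : q.factorial ^ 2 ≤ s) :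
    s ≡ rr q [MOD q] :=
  (hs q h).of_dvd (Nat.dvd_factorial hq le_rfl)

lemma rr_modEq_of_le {q m : ℕ} (hq : 0 < q) (h : q ≤ m) : rr m ≡ rr q [MOD q] :=
  (rr_modEq h).of_dvd (Nat.dvd_factorial hq le_rfl)

lemma SS_dense (δ C : ℕ) (hδ : 0 < δ) : ∃ N0, ∀ n, N0 ≤ n → ∀ X, X ≡ rr δ [MOD δ] →
    X ≤ C * n → ∃ i ≤ n, X + i * δ ∈ SS := by
  refine ⟨C + δ + δ.factorial + 1, fun n hn X hX hXn => ?_⟩
  set T := X + n * δ with hT
  have hTn : T ≤ n * n := by
    have : T ≤ (C + δ) * n := by rw [hT]; nlinarith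
    exact this.trans (Nat.mul_le_mul_right _ (by omega))
  set m1 := Nat.findGreatest (fun m => m.factorial ^ 2 ≤ T) T with hm1
  have hm1' : m1.factorial ≤ n := by
    by_cases h0 : m1 = 0
    · rw [h0]; simp; omega
    · have h1 : m1.factorial ^ 2 ≤ T :=
        Nat.findGreatest_of_ne_zero (P := fun m => m.factorial ^ 2 ≤ T) hm1.symm h0
      by_contra hcon
      have : n * n < m1.factorial ^ 2 := by
        rw [pow_two]; exact Nat.mul_self_lt_mul_self (by omega)
      omega
  set m := max m1 δ with hm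
  have hmn : m.factorial ≤ n := by
    rcases max_cases m1 δ with ⟨h, _⟩ | ⟨h, _⟩
    · rw [hm, h]; exact hm1'
    · rw [hm, h]; omega
  have hδm : δ ∣ m.factorial := Nat.dvd_factorial hδ (le_max_right _ _)
  have hXm : X ≡ rr m [MOD δ] := hX.trans (rr_modEq_of_le hδ (le_max_right _ _)).symm
  have hpos : 0 < m.factorial := Nat.factorial_pos m
  -- a solution of the congruence
  obtain ⟨i0, hi0⟩ : ∃ i0, rr m + m.factorial * X = X + i0 * δ := by
    have h1 : X ≤ rr m + m.factorial * X :=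
      (Nat.le_mul_of_pos_left X hpos).trans (Nat.le_add_left _ _)
    have h2 : X ≡ rr m + m.factorial * X [MOD δ] := by
      have : m.factorial * X ≡ 0 [MOD δ] := (Nat.modEq_zero_iff_dvd).2 (hδm.mul_right X)
      simpa using hXm.add this.symm
    obtain ⟨c, hc⟩ := (Nat.modEq_iff_dvd' h1).1 h2
    exact ⟨c, by rw [mul_comm c δ, ← hc]; omega⟩
  refine ⟨i0 % m.factorial, (Nat.mod_lt _ hpos).le.trans hmn, ?_⟩
  have key : X + i0 % m.factorial * δ ≡ rr m [MOD m.factorial] := by
    have h1 : i0 % m.factorial * δ ≡ i0 * δ [MOD m.factorial] :=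
      (Nat.mod_modEq _ _).mul_right δ
    have h2 : X + i0 % m.factorial * δ ≡ X + i0 * δ [MOD m.factorial] :=
      (Nat.ModEq.refl X).add h1
    rw [← hi0] at h2
    exact h2.trans (by simp [Nat.ModEq])
  intro m' hm'
  have hle : X + i0 % m.factorial * δ ≤ T := by
    rw [hT]
    exact Nat.add_le_add_left (Nat.mul_le_mul_right _ ((Nat.mod_lt _ hpos).le.trans hmn)) _
  have h4 : m'.factorial ^ 2 ≤ T := hm'.trans hle
  have h5 : m' ≤ T := by
    have := Nat.self_le_factorial m'
    have h6 : m'.factorial ≤ m'.factorial ^ 2 := Nat.le_self_pow (by norm_num) _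
    omega
  have h7 : m' ≤ m1 := Nat.le_findGreatest h5 h4
  have h8 : m' ≤ m := h7.trans (le_max_left _ _)
  exact (key.of_dvd (Nat.factorial_dvd_factorial h8)).trans (rr_modEq h8)

lemma SS_inf (N : ℕ) : ∃ s ∈ SS, N ≤ s := by
  obtain ⟨N0, h⟩ := SS_dense 1 1 one_pos
  obtain ⟨i, _, hi⟩ := h (max N0 N) (le_max_left _ _) N (Nat.modEq_one) (by simp)
  exact ⟨_, hi, by omega⟩

/-- the elements of `SS` in a residue class -/
lemma SS_inf_class {δ X : ℕ} (hδ : 0 < δ) (hX : X ≡ rr δ [MOD δ]) (N : ℕ) :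
    ∃ i, N ≤ i ∧ X + i * δ ∈ SS := by
  obtain ⟨s, hs, hle⟩ := SS_inf (X + N * δ + δ.factorial ^ 2)
  have h1 : X ≡ s [MOD δ] := hX.trans (SS_res hδ hs (by omega)).symm
  obtain ⟨c, hc⟩ := (Nat.modEq_iff_dvd' (by omega)).1 h1
  refine ⟨c, ?_, ?_⟩
  · by_contra hcon
    have : c * δ < N * δ := Nat.mul_lt_mul_of_pos_right (by omega) hδ
    have h2 : s - X = c * δ := by rw [hc]; ring
    omega
  · have h2 : s - X = c * δ := by rw [hc]; ring
    rw [← h2, show X + (s - X) = s by omega]
    exact hs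

/-- two large elements of `SS` are congruent -/
lemma SS_cauchy {q s s' : ℕ} (hq : 0 < q) (hs : s ∈ SS) (hs' : s' ∈ SS)
    (h : q.factorial ^ 2 ≤ s) (h' : q.factorial ^ 2 ≤ s') : s ≡ s' [MOD q] :=
  (SS_res hq hs h).trans (SS_res hq hs' h').symm

lemma rr_le (m : ℕ) : rr m ≤ m.factorial := by
  induction m with
  | zero => simp [rr]
  | succ m ih =>
    rcases Nat.eq_zero_or_pos m with rfl | hm
    · simp [rr]
    · rw [rr_succ, Nat.factorial_succ]
      have : 2 * m.factorial ≤ (m + 1) * m.factorial := Nat.mul_le_mul_right _ (by omega)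
      omega

lemma rr_irr (A B : ℤ) (h : ∀ m : ℕ, (m.factorial : ℤ) ∣ A * rr m - B) : A = 0 ∧ B = 0 := by
  choose k hk using h
  have hrec : ∀ m : ℕ, k (m + 1) * (m + 1 : ℤ) = k m + A := by
    intro m
    have h1 := hk m
    have h2 := hk (m + 1)
    rw [rr_succ, Nat.factorial_succ] at h2
    push_cast at h2
    have hpos : (0 : ℤ) < m.factorial := by exact_mod_cast Nat.factorial_pos m
    have h3 : (m.factorial : ℤ) * (k (m + 1) * (m + 1)) = m.factorial * (k m + A) := by
      linear_combination h1 - h2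
    exact mul_left_cancel₀ hpos.ne' h3
  have hbd : ∀ m : ℕ, |k m| ≤ |A| + |B| := by
    intro m
    have hpos : (0 : ℤ) < m.factorial := by exact_mod_cast Nat.factorial_pos m
    have h1 : |(m.factorial : ℤ) * k m| ≤ m.factorial * (|A| + |B|) := by
      rw [← hk m]
      calc |A * rr m - B| ≤ |A * rr m| + |B| := abs_sub _ _
        _ = |A| * rr m + |B| := by rw [abs_mul, Nat.abs_cast]
        _ ≤ |A| * m.factorial + |B| * m.factorial := by
          have h2 : (rr m : ℤ) ≤ m.factorial := by exact_mod_cast rr_le m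
          have h3 : |B| * 1 ≤ |B| * m.factorial :=
            mul_le_mul_of_nonneg_left (by exact_mod_cast hpos) (abs_nonneg B)
          have h4 := mul_le_mul_of_nonneg_left h2 (abs_nonneg A)
          linarith
        _ = m.factorial * (|A| + |B|) := by ring
    rw [abs_mul, abs_of_pos hpos] at h1
    exact le_of_mul_le_mul_left h1 hpos
  have hzero : ∀ m : ℕ, 2 * |A| + |B| < m + 1 → k (m + 1) = 0 ∧ k m = - A := by
    intro m hm
    have h1 := hrec m
    have h2 : |k (m + 1) * (m + 1 : ℤ)| < m + 1 := by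
      rw [h1]
      calc |k m + A| ≤ |k m| + |A| := abs_add_le _ _
        _ ≤ 2 * |A| + |B| := by have := hbd m; linarith
        _ < m + 1 := hm
    have h3 : k (m + 1) = 0 := by
      rw [abs_mul, abs_of_pos (by positivity : (0 : ℤ) < (m : ℤ) + 1)] at h2
      by_contra hne
      have : 1 ≤ |k (m + 1)| := Int.one_le_abs hne
      nlinarith
    refine ⟨h3, ?_⟩
    rw [h3] at h1
    linarith
  obtain ⟨m, hm⟩ : ∃ m : ℕ, 2 * |A| + |B| < m + 1 :=
    ⟨(2 * |A| + |B|).toNat, by have := Int.self_le_toNat (2 * |A| + |B|); linarith⟩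
  obtain ⟨h1, h2⟩ := hzero m hm
  obtain ⟨h3, h4⟩ := hzero (m + 1) (by push_cast; linarith)
  have hA : A = 0 := by rw [h1] at h4; linarith
  have h5 := hk m
  rw [hA] at h5 h2
  rw [h2] at h5
  refine ⟨hA, ?_⟩
  simpa using h5

/-- irrationality of the limit -/
lemma SS_irr {A B : ℤ} (h : ¬ (A = 0 ∧ B = 0)) :
    ∃ N : ℕ, 0 < N ∧ ∃ M : ℕ, ∀ s ∈ SS, M ≤ s → ¬ (N : ℤ) ∣ A * s - B := by
  by_contra hcon
  apply h
  apply rr_irr
  intro m
  by_contra hm
  apply hcon
  refine ⟨m.factorial, Nat.factorial_pos m, m.factorial ^ 2, fun s hs hle hdvd => hm ?_⟩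
  have h1 : (s : ℤ) ≡ rr m [ZMOD m.factorial] := by
    exact_mod_cast (hs m hle)
  have h2 : A * s - B ≡ A * rr m - B [ZMOD m.factorial] := (h1.mul_left A).sub_right B
  exact (Int.modEq_zero_iff_dvd).1 (h2.symm.trans ((Int.modEq_zero_iff_dvd).2 hdvd))

end Pool.Agent.K3h33.MC
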