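import Pool.Agent.K3h33.MC.Rec

/-!
A line that is not ultimately periodic contains an affine copy of `SS`.
-/

namespace Pool.Agent.K3h33.MC

open Function

lemma semilinear_ev {U : Set ℕ} {q r M : ℕ} (hq : 0 < q)
    (h : (∀ t, M ≤ t → t ≡ r [MOD q] → t ∈ U) ∨ (∀ t, M ≤ t → t ≡ r [MOD q] → t ∉ U)) :
    IsSemilinearSet (U ∩ {t | t ≡ r [MOD q]}) := by
  rw [Nat.isSemilinearSet_iff_ultimately_periodic]
  refine ⟨M, q, hq, fun x hx => ?_⟩
  have h1 : x ≡ r [MOD q] ↔ x + q ≡ r [MOD q] := by simp [Nat.ModEq]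
  constructor
  · rintro ⟨h2, h3⟩
    rcases h with h | h
    · exact ⟨h _ (by omega) (h1.1 h3), h1.1 h3⟩
    · exact absurd h2 (h _ hx h3)
  · rintro ⟨h2, h3⟩
    rcases h with h | h
    · exact ⟨h _ hx (h1.2 h3), h1.2 h3⟩
    · exact absurd h2 (h _ (by omega) h3)

section

variable {ι : Type} {k : ℕ} {P : ι → Fin k → Set (ℕ × ℕ)} (D : Dat P)

include D in
theorem unary_step [Finite ι] {e : Fin k → ℕ} {j : Fin k}
    (h : ¬ IsSemilinearSet {t | update e j t ∈ YY P}) :
    ∃ t0 P0 s0 Q0 : ℕ, (∀ n, update e j (t0 + P0 * n) ∈ YY P ↔ s0 + Q0 * n ∈ SS) ∧ s0 ∈ SS ∧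
      ∀ s ∈ SS, s0 ≤ s → ∃ n, s = s0 + Q0 * n := by
  classical
  have := Fintype.ofFinite ι
  -- a residue class
  obtain ⟨r, hr⟩ : ∃ r : Fin D.q, ¬ IsSemilinearSet
      ({t | update e j t ∈ YY P} ∩ {t | t ≡ r [MOD D.q]}) := by
    by_contra hcon
    push Not at hcon
    apply h
    have h1 := IsSemilinearSet.iUnion hcon
    suffices heq : {t | update e j t ∈ YY P} =
        ⋃ r : Fin D.q, ({t | update e j t ∈ YY P} ∩ {t | t ≡ r [MOD D.q]}) by
      rw [heq]; exact h1
    ext t
    rw [Set.mem_iUnion]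
    constructor
    · intro ht
      exact ⟨⟨t % D.q, Nat.mod_lt _ D.hq⟩, ht, (Nat.mod_modEq _ _).symm⟩
    · rintro ⟨_, ht, _⟩
      exact ht
  set c : Fin k → ℕ := update e j r with hc
  have hbx : ∀ M t, M ≤ t → t ≡ r [MOD D.q] → update e j t ∈ Box D.q {j} c M := by
    intro M t h1 h2
    refine ⟨fun i hi => ?_, fun i hi => ?_⟩
    · rw [Finset.mem_singleton] at hi
      subst hi
      rw [update_self, hc, update_self]
      exact ⟨h1, h2⟩
    · rw [Finset.mem_singleton] at hi
      rw [hc, update_of_ne hi, update_of_ne hi]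
  have hZ : e0 D {j} c ∉ Zs D := by
    intro hZ
    apply hr
    apply semilinear_ev (M := D.m) D.hq
    left
    intro t h1 h2
    apply Zs_sub D
    exact Zs_sim D (fun i => (sim_e0 D le_rfl (hbx _ _ h1 h2) i).symm) hZ
  have hB : ∀ a, live D a (e0 D {j} c) → ¬ Flex (P a j) := by
    intro a ha hf
    apply hr
    obtain ⟨M, _, hM⟩ := caseA D (Finset.singleton_nonempty j) hZ (by
      intro j' hj'
      rw [Finset.mem_singleton] at hj'
      subst hj'
      exact ⟨a, ha, hf⟩)
    apply semilinear_ev (M := M) D.hq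
    left
    intro t h1 h2
    exact hM _ (hbx _ _ h1 h2)
  obtain ⟨A, B, cc, hBpos, hR⟩ := exists_rigid D hZ hB
  -- witnesses
  have hwit : ∀ t, D.m ≤ t → t ≡ r [MOD D.q] → update e j t ∈ YY P → ∃ a, ∃ x : Fin k → ℕ,
      (∀ i, (x i, update e j t i) ∈ P a i) ∧ ∑ i, x i ∈ SS ∧ live D a (e0 D {j} c) ∧
      (∀ i, ¬ Horiz (P a i)) ∧ 0 < A a := by
    intro t h1 h2 hY
    have hs := sim_e0 D le_rfl (hbx _ _ h1 h2)
    have hZ' : update e j t ∉ Zs D := fun h => hZ (Zs_sim D hs h)
    obtain ⟨a, x, hx, h3, _, h4, h5⟩ := Y_cases D hY hZ'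
    have hl := live_sim D hs h4
    refine ⟨a, x, hx, h3, hl, h5, ?_⟩
    by_contra hA0
    have hA0' : A a = 0 := by omega
    apply hr
    apply semilinear_ev (M := D.m) D.hq
    left
    intro t' h1' h2'
    have h6 : (x j, t') ∈ P a j := by
      have := hx j
      rw [update_self] at this
      apply rigid_zero D (hBpos a) (c := cc a) _ this
      · exact Or.inr ⟨h1, h1', h2.trans h2'.symm⟩
      · intro s t hst
        have := hR a hl s t hst
        rw [hA0'] at this
        simpa using this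
    refine ⟨a, x, fun i => ?_, h3⟩
    have := mem_update hx h6 i
    rwa [update_eq_self, update_idem] at this
  set W := ∑ i, D.C * (e i + 1) with hW
  -- the constant terms
  let cw : ι × Fin (W + 1) → ℤ := fun κ => cc κ.1 + B κ.1 * (κ.2 : ℕ)
  have hirr : ∀ κ κ' : ι × Fin (W + 1), ∃ N : ℕ, 0 < N ∧ ∃ M : ℕ,
      ¬ ((A κ'.1 : ℤ) * B κ.1 - A κ.1 * B κ'.1 = 0 ∧ A κ'.1 * cw κ - A κ.1 * cw κ' = 0) →
      ∀ s ∈ SS, M ≤ s → ¬ (N : ℤ) ∣ ((A κ'.1 : ℤ) * B κ.1 - A κ.1 * B κ'.1) * s -
        (A κ'.1 * cw κ - A κ.1 * cw κ') := by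
    intro κ κ'
    by_cases h0 : ((A κ'.1 : ℤ) * B κ.1 - A κ.1 * B κ'.1 = 0 ∧
        A κ'.1 * cw κ - A κ.1 * cw κ' = 0)
    · exact ⟨1, one_pos, 0, fun h => absurd h0 h⟩
    · obtain ⟨N, hN, M, hM⟩ := SS_irr h0
      exact ⟨N, hN, M, fun _ => hM⟩
  choose Nf hNf Mf hMf using hirr
  set N := ∏ κ, ∏ κ', Nf κ κ' with hN
  have hNpos : 0 < N := Finset.prod_pos fun κ _ => Finset.prod_pos fun κ' _ => hNf κ κ'
  have hNdvd : ∀ κ κ', Nf κ κ' ∣ N := by
    intro κ κ'
    have e1 : (∏ κ', Nf κ κ') ∣ N :=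
      Finset.dvd_prod_of_mem (fun κ => ∏ κ', Nf κ κ') (Finset.mem_univ κ)
    exact (Finset.dvd_prod_of_mem (fun κ' => Nf κ κ') (Finset.mem_univ κ')).trans e1
  set M' := ∑ κ, ∑ κ', Mf κ κ' with hM'
  have hMle : ∀ κ κ', Mf κ κ' ≤ M' := by
    intro κ κ'
    have e1 : Mf κ κ' ≤ ∑ κ', Mf κ κ' :=
      Finset.single_le_sum (f := fun κ' => Mf κ κ') (fun _ _ => Nat.zero_le _)
        (Finset.mem_univ κ')
    have e2 : ∑ κ', Mf κ κ' ≤ M' :=
      Finset.single_le_sum (f := fun κ => ∑ κ', Mf κ κ') (fun _ _ => Nat.zero_le _)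
        (Finset.mem_univ κ)
    omega
  set S0 := M' + N.factorial ^ 2 + ∑ a, (A a * D.q * N).factorial ^ 2 with hS0
  have hS0a : ∀ a, (A a * D.q * N).factorial ^ 2 ≤ S0 := by
    intro a
    have := Finset.single_le_sum (f := fun a => (A a * D.q * N).factorial ^ 2)
      (fun _ _ => Nat.zero_le _) (Finset.mem_univ a)
    omega
  set T := D.m + ∑ a, (B a * S0 + (cc a).natAbs) with hT
  have hTa : ∀ a, B a * S0 + (cc a).natAbs ≤ T := by
    intro a
    have := Finset.single_le_sum (f := fun a => B a * S0 + (cc a).natAbs)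
      (fun _ _ => Nat.zero_le _) (Finset.mem_univ a)
    omega
  -- a large element of the line
  obtain ⟨t0, ht0, ht0r, ht0Y⟩ : ∃ t0, T ≤ t0 ∧ t0 ≡ r [MOD D.q] ∧ update e j t0 ∈ YY P := by
    by_contra hcon
    push Not at hcon
    apply hr
    apply semilinear_ev (M := T) D.hq
    right
    intro t h1 h2
    exact hcon t h1 h2
  obtain ⟨a, x, hx, hs, hl, hnh, hAa⟩ := hwit t0 (by omega) ht0r ht0Y
  have hxj := hx j
  rw [update_self] at hxj
  have hxl : S0 ≤ x j := rigid_large hAa (hBpos a) (hR a hl _ _ hxj) ((hTa a).trans ht0)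
  have hxs : x j ≤ ∑ i, x i :=
    Finset.single_le_sum (fun _ _ => Nat.zero_le _) (Finset.mem_univ j)
  have hQpos : 0 < A a * D.q * N := Nat.mul_pos (Nat.mul_pos hAa D.hq) hNpos
  have hy : ∑ i ∈ Finset.univ.erase j, x i ≤ W :=
    sum_erase_le D hnh hx (fun i hi => update_of_ne hi _ _)
  have hsplit : ∑ i, x i = x j + ∑ i ∈ Finset.univ.erase j, x i :=
    (Finset.add_sum_erase _ _ (Finset.mem_univ j)).symm
  refine ⟨t0, D.q * B a * N, ∑ i, x i, A a * D.q * N, fun n => ?_, hs, fun s hsS hle => ?_⟩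
  · constructor
    · intro hY
      have htc : t0 + D.q * B a * N * n ≡ r [MOD D.q] := by
        refine Nat.ModEq.trans ?_ ht0r
        simp [Nat.ModEq, mul_assoc]
      obtain ⟨a', x', hx', hs', hl', hnh', hAa'⟩ := hwit _ (by omega) htc hY
      have hxj' := hx' j
      rw [update_self] at hxj'
      have hxl' : S0 ≤ x' j := rigid_large hAa' (hBpos a') (hR a' hl' _ _ hxj')
        ((hTa a').trans (by omega))
      have hxs' : x' j ≤ ∑ i, x' i :=
        Finset.single_le_sum (fun _ _ => Nat.zero_le _) (Finset.mem_univ j)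
      have hy' : ∑ i ∈ Finset.univ.erase j, x' i ≤ W :=
        sum_erase_le D hnh' hx' (fun i hi => update_of_ne hi _ _)
      have hsplit' : ∑ i, x' i = x' j + ∑ i ∈ Finset.univ.erase j, x' i :=
        (Finset.add_sum_erase _ _ (Finset.mem_univ j)).symm
      set y := ∑ i ∈ Finset.univ.erase j, x i with hydef
      set y' := ∑ i ∈ Finset.univ.erase j, x' i with hydef'
      -- the two affine relations
      have r1 : (B a : ℤ) * ((∑ i, x i : ℕ) + (A a * D.q * N * n : ℕ)) =
          A a * (t0 + D.q * B a * N * n : ℕ) + cw (a, ⟨y, Nat.lt_succ_of_le hy⟩) := by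
        have := hR a hl _ _ hxj
        simp only [cw]
        rw [hsplit]
        push_cast
        linear_combination this
      have r2 : (B a' : ℤ) * (∑ i, x' i : ℕ) =
          A a' * (t0 + D.q * B a * N * n : ℕ) + cw (a', ⟨y', Nat.lt_succ_of_le hy'⟩) := by
        have := hR a' hl' _ _ hxj'
        simp only [cw]
        rw [hsplit']
        push_cast
        push_cast at this
        linear_combination this
      set κ : ι × Fin (W + 1) := (a, ⟨y, Nat.lt_succ_of_le hy⟩) with hκ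
      set κ' : ι × Fin (W + 1) := (a', ⟨y', Nat.lt_succ_of_le hy'⟩) with hκ'
      set t := t0 + D.q * B a * N * n with htdef
      set s := ∑ i, x i with hsdef
      set s' := ∑ i, x' i with hsdef'
      have r3 : (A a' : ℤ) * B a * (s + (A a * D.q * N * n : ℕ)) - A a * B a' * s' =
          A a' * cw κ - A a * cw κ' := by
        linear_combination (A a' : ℤ) * r1 - (A a : ℤ) * r2
      by_cases h0 : ((A a' : ℤ) * B a - A a * B a' = 0 ∧ A a' * cw κ - A a * cw κ' = 0)
      · have h1 : ((A a' : ℤ) * B a) * (s + (A a * D.q * N * n : ℕ)) =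
            ((A a' : ℤ) * B a) * s' := by
          linear_combination r3 + h0.2 - (s' : ℤ) * h0.1
        have hne : ((A a' : ℤ) * B a) ≠ 0 := by
          have := hBpos a
          positivity
        have h2 := mul_left_cancel₀ hne h1
        have h3 : s + A a * D.q * N * n = s' := by exact_mod_cast h2
        rw [h3]
        exact hs'
      · exfalso
        apply hMf κ κ' h0 s hs ((hMle κ κ').trans (by omega))
        have hN1 : (N : ℤ) ∣ (s : ℤ) - s' := by
          have h1 := SS_cauchy hNpos hs' hs (by omega) (by omega)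
          exact Nat.modEq_iff_dvd.1 h1
        have hN2 : (N : ℤ) ∣ ((A a * D.q * N * n : ℕ) : ℤ) := by
          exact_mod_cast Dvd.dvd.mul_right (Dvd.intro_left _ rfl) n
        apply (Int.natCast_dvd_natCast.2 (hNdvd κ κ')).trans
        have h4 : ((A κ'.1 : ℤ) * B κ.1 - A κ.1 * B κ'.1) * s - (A κ'.1 * cw κ - A κ.1 * cw κ') =
            - (A a' : ℤ) * B a * ((A a * D.q * N * n : ℕ) : ℤ) - A a * B a' * (s - s') := by
          have e1 : κ.1 = a := rfl
          have e2 : κ'.1 = a' := rfl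
          rw [e1, e2]
          linear_combination r3
        rw [h4]
        exact dvd_sub (Dvd.dvd.mul_left hN2 _) (Dvd.dvd.mul_left hN1 _)
    · intro hn
      have h1 := rigid_move D (hBpos a) (hR a hl) hxj (by omega) (N * n)
      rw [show D.q * B a * (N * n) = D.q * B a * N * n by ring,
        show N * n * (A a * D.q) = A a * D.q * N * n by ring] at h1
      refine ⟨a, update x j (x j + A a * D.q * N * n), fun i => ?_, ?_⟩
      · have := mem_update hx h1 i
        rwa [update_idem] at this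
      · have := sum_update x j (x j + A a * D.q * N * n)
        rw [show ∑ i', update x j (x j + A a * D.q * N * n) i' =
          ∑ i, x i + A a * D.q * N * n by omega]
        exact hn
  · have h1 := hS0a a
    have hcong := SS_cauchy hQpos hs hsS (by omega) (by omega)
    obtain ⟨n, hn⟩ := (Nat.modEq_iff_dvd' hle).1 hcong
    exact ⟨n, by omega⟩

end

end Pool.Agent.K3h33.MC
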